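import Mathlib

/-!
# Quotients of polynomial rings by the pure powers of the variables
-/

open MvPolynomial

namespace Pool.Agent.Helper73_HK

/-- The ideal generated by the `q`-th powers of the variables. -/
noncomputable def powIdeal (ι : Type*) (C : Type*) [CommRing C] (q : ℕ) :
    Ideal (MvPolynomial ι C) :=
  Ideal.span (Set.range fun i : ι => (X i : MvPolynomial ι C) ^ q)

/-- The exponent vector attached to a point of the box. -/
noncomputable def boxExp {ι : Type*} [Fintype ι] {q : ℕ} (α : ι → Fin q) : ι →₀ ℕ :=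
  Finsupp.equivFunOnFinite.symm fun i => (α i : ℕ)

@[simp] lemma boxExp_apply {ι : Type*} [Fintype ι] {q : ℕ} (α : ι → Fin q) (i : ι) :
    boxExp α i = (α i : ℕ) := rfl

lemma boxExp_injective {ι : Type*} [Fintype ι] {q : ℕ} :
    Function.Injective (boxExp : (ι → Fin q) → ι →₀ ℕ) := by
  intro α β h
  funext i
  have := DFunLike.congr_fun h i
  exact Fin.ext (by simpa using this)

section

variable {ι : Type*} [Fintype ι] {C : Type*} [CommRing C] (q : ℕ)

/-- Coefficients in the box. -/
noncomputable def boxCoeff : MvPolynomial ι C →ₗ[C] ((ι → Fin q) → C) :=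
  LinearMap.pi fun α => lcoeff (R := C) (boxExp α)

@[simp] lemma boxCoeff_apply (P : MvPolynomial ι C) (α : ι → Fin q) :
    boxCoeff q P α = coeff (boxExp α) P := rfl

omit [Fintype ι] in
lemma monomial_mem_powIdeal {m : ι →₀ ℕ} {i : ι} (h : q ≤ m i) (c : C) :
    monomial m c ∈ powIdeal ι C q := by
  classical
  have h1 : m = (m - Finsupp.single i q) + Finsupp.single i q := by
    ext j
    by_cases hj : j = i
    · subst hj; simp; omega
    · simp [Ne.symm hj]
  have : monomial m c = monomial (m - Finsupp.single i q) c * (X i) ^ q := by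
    rw [X_pow_eq_monomial, monomial_mul, mul_one, ← h1]
  rw [this]
  exact Ideal.mul_mem_left _ _ (Ideal.subset_span ⟨i, rfl⟩)

omit [Fintype ι] in
lemma mem_powIdeal_of_support {P : MvPolynomial ι C} (h : ∀ m ∈ P.support, ∃ i, q ≤ m i) :
    P ∈ powIdeal ι C q := by
  rw [P.as_sum]
  refine Ideal.sum_mem _ fun m hm => ?_
  obtain ⟨i, hi⟩ := h m hm
  exact monomial_mem_powIdeal q hi _

omit [Fintype ι] in
lemma coeff_eq_zero_of_mem_powIdeal {P : MvPolynomial ι C} (hP : P ∈ powIdeal ι C q)
    {m : ι →₀ ℕ} (hm : ∀ i, m i < q) : coeff m P = 0 := by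
  classical
  have hup : IsUpperSet {m : ι →₀ ℕ | ∃ i, q ≤ m i} := by
    rintro a b hab ⟨i, hi⟩
    exact ⟨i, hi.trans (hab i)⟩
  have hle : powIdeal ι C q ≤ restrictSupportIdeal (R := C) _ hup := by
    unfold powIdeal
    rw [Ideal.span_le]
    rintro _ ⟨i, rfl⟩
    change (X i : MvPolynomial ι C) ^ q ∈ restrictSupport C _
    rw [X_pow_eq_monomial, monomial_mem_restrictSupport]
    left
    exact ⟨i, by simp⟩
  have h2 : P ∈ restrictSupport C {m : ι →₀ ℕ | ∃ i, q ≤ m i} := hle hP
  rw [mem_restrictSupport_iff] at h2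
  by_contra hne
  obtain ⟨i, hi⟩ := h2 (Finset.mem_coe.mpr (mem_support_iff.mpr hne))
  exact absurd hi (not_le.mpr (hm i))

lemma ker_boxCoeff :
    LinearMap.ker (boxCoeff q : MvPolynomial ι C →ₗ[C] _) =
      (powIdeal ι C q).restrictScalars C := by
  ext P
  rw [LinearMap.mem_ker, Submodule.restrictScalars_mem]
  constructor
  · intro h
    refine mem_powIdeal_of_support q fun m hm => ?_
    by_contra hne
    push Not at hne
    have h1 := congrFun h (fun i => ⟨m i, hne i⟩)
    simp only [boxCoeff_apply, Pi.zero_apply] at h1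
    rw [mem_support_iff] at hm
    apply hm
    convert h1
    ext i
    simp
  · intro h
    funext α
    simp only [boxCoeff_apply, Pi.zero_apply]
    exact coeff_eq_zero_of_mem_powIdeal q h fun i => (α i).2

lemma boxCoeff_surjective :
    Function.Surjective (boxCoeff q : MvPolynomial ι C →ₗ[C] ((ι → Fin q) → C)) := by
  classical
  intro g
  refine ⟨∑ α, monomial (boxExp α) (g α), ?_⟩
  funext β
  rw [boxCoeff_apply, coeff_sum, Finset.sum_eq_single β]
  · simp
  · intro α _ h
    rw [coeff_monomial, if_neg]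
    exact fun h' => h (boxExp_injective h')
  · simp

variable (K : Type*) [Field K] [Algebra K C]

lemma ker_boxCoeff_restrict :
    LinearMap.ker ((boxCoeff q : MvPolynomial ι C →ₗ[C] _).restrictScalars K) =
      (powIdeal ι C q).restrictScalars K := by
  ext P
  have := ker_boxCoeff (C := C) (ι := ι) q
  have h2 : P ∈ LinearMap.ker (boxCoeff q : MvPolynomial ι C →ₗ[C] _) ↔
      P ∈ (powIdeal ι C q).restrictScalars C := by rw [this]
  exact h2

/-- The quotient by the powers of the variables is a free module. -/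
lemma exists_quotEquivBox :
    Nonempty ((MvPolynomial ι C ⧸ powIdeal ι C q) ≃ₗ[K] ((ι → Fin q) → C)) := by
  have e1 : ((MvPolynomial ι C) ⧸ (powIdeal ι C q).restrictScalars K) ≃ₗ[K]
      (MvPolynomial ι C ⧸ powIdeal ι C q) :=
    Submodule.Quotient.restrictScalarsEquiv K (powIdeal ι C q)
  let Φ : MvPolynomial ι C →ₗ[K] ((ι → Fin q) → C) :=
    (boxCoeff q : MvPolynomial ι C →ₗ[C] _).restrictScalars K
  have hs : Function.Surjective Φ := boxCoeff_surjective q
  have e2 : ((MvPolynomial ι C) ⧸ LinearMap.ker Φ) ≃ₗ[K] ((ι → Fin q) → C) :=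
    Φ.quotKerEquivOfSurjective hs
  have hk : LinearMap.ker Φ = (powIdeal ι C q).restrictScalars K :=
    ker_boxCoeff_restrict (C := C) (ι := ι) q K
  rw [hk] at e2
  exact ⟨e1.symm.trans e2⟩

lemma finrank_quot_powIdeal [Module.Finite K C] :
    Module.finrank K (MvPolynomial ι C ⧸ powIdeal ι C q) =
      q ^ Fintype.card ι * Module.finrank K C := by
  classical
  obtain ⟨e⟩ := exists_quotEquivBox (ι := ι) (C := C) q K
  rw [e.finrank_eq, Module.finrank_pi_fintype]
  simp

lemma finite_quot_powIdeal [Module.Finite K C] :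
    Module.Finite K (MvPolynomial ι C ⧸ powIdeal ι C q) := by
  obtain ⟨e⟩ := exists_quotEquivBox (ι := ι) (C := C) q K
  exact Module.Finite.equiv e.symm

end

end Pool.Agent.Helper73_HK
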