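import Mathlib
import Pool.Agent.Helper73_HK.Box

/-!
# Dimensions of `B / (b ^ j)` for a finite-dimensional commutative algebra
-/

open MvPolynomial

namespace Pool.Agent.Helper73_HK

section

variable {K : Type*} [Field K] {B : Type*} [CommRing B] [Algebra K B] [Module.Finite K B]

/-- rank of multiplication by `b`. -/
noncomputable def rk (K : Type*) [Field K] {B : Type*} [CommRing B] [Algebra K B] (b : B) : ℕ :=
  Module.finrank K (LinearMap.range (LinearMap.mulLeft K b))

omit [Module.Finite K B] in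
lemma range_mulLeft (b : B) :
    LinearMap.range (LinearMap.mulLeft K b) = (Ideal.span {b}).restrictScalars K := by
  ext x
  simp only [LinearMap.mem_range, LinearMap.mulLeft_apply, Submodule.restrictScalars_mem,
    Ideal.mem_span_singleton]
  constructor
  · rintro ⟨y, rfl⟩; exact ⟨y, rfl⟩
  · rintro ⟨y, rfl⟩; exact ⟨y, rfl⟩

lemma finrank_quot_add_rk (b : B) :
    Module.finrank K (B ⧸ Ideal.span {b}) + rk K b = Module.finrank K B := by
  unfold rk
  rw [range_mulLeft, ← Submodule.finrank_quotient_add_finrank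
    ((Ideal.span {b}).restrictScalars K),
    (Submodule.Quotient.restrictScalarsEquiv K (Ideal.span {b})).finrank_eq]

lemma rk_mul_add (b c : B) :
    Module.finrank K (LinearMap.ker (LinearMap.mulLeft K b) ⊓
      LinearMap.range (LinearMap.mulLeft K c) : Submodule K B) + rk K (b * c) = rk K c := by
  unfold rk
  let N := LinearMap.range (LinearMap.mulLeft K c)
  let f : N →ₗ[K] B := (LinearMap.mulLeft K b).domRestrict N
  have h1 := LinearMap.finrank_range_add_finrank_ker f
  have h2 : LinearMap.range f = LinearMap.range (LinearMap.mulLeft K (b * c)) := by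
    ext x
    constructor
    · rintro ⟨⟨_, ⟨y, rfl⟩⟩, rfl⟩
      exact ⟨y, by simp [f]⟩
    · rintro ⟨y, rfl⟩
      exact ⟨⟨c * y, ⟨y, rfl⟩⟩, by simp [f]⟩
  have h3 : Module.finrank K (LinearMap.ker f) =
      Module.finrank K (LinearMap.ker (LinearMap.mulLeft K b) ⊓ N : Submodule K B) := by
    have e : (LinearMap.ker f).map N.subtype = LinearMap.ker (LinearMap.mulLeft K b) ⊓ N := by
      ext x
      simp only [Submodule.mem_map, LinearMap.mem_ker, Submodule.subtype_apply, Submodule.mem_inf]
      constructor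
      · rintro ⟨⟨y, hy⟩, hy2, rfl⟩
        exact ⟨hy2, hy⟩
      · rintro ⟨hx, hxN⟩
        exact ⟨⟨x, hxN⟩, hx, rfl⟩
    rw [← e]
    exact (LinearEquiv.finrank_eq (Submodule.equivMapOfInjective N.subtype
      (Submodule.injective_subtype N) _))
  rw [h2, h3] at h1
  rw [add_comm]
  exact h1

omit [Module.Finite K B] in
lemma range_antitone (b : B) (i j : ℕ) (h : i ≤ j) :
    LinearMap.range (LinearMap.mulLeft K (b ^ j)) ≤
      LinearMap.range (LinearMap.mulLeft K (b ^ i)) := by
  rintro _ ⟨y, rfl⟩
  obtain ⟨k, rfl⟩ := Nat.exists_eq_add_of_le h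
  exact ⟨b ^ k * y, by simp [pow_add]⟩

/-- `dim B/(b^j)`. -/
noncomputable def gd (K : Type*) [Field K] {B : Type*} [CommRing B] [Algebra K B] (b : B)
    (j : ℕ) : ℕ :=
  Module.finrank K (B ⧸ Ideal.span {b ^ j})

lemma gd_add_rk (b : B) (j : ℕ) : gd K b j + rk K (b ^ j) = Module.finrank K B :=
  finrank_quot_add_rk _

lemma gd_mono (b : B) {i j : ℕ} (h : i ≤ j) : gd K b i ≤ gd K b j := by
  have h1 := gd_add_rk (K := K) b i
  have h2 := gd_add_rk (K := K) b j
  have h3 : rk K (b ^ j) ≤ rk K (b ^ i) := Submodule.finrank_mono (range_antitone b i j h)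
  omega

/-- the increments `dim B/(b^(j+1)) - dim B/(b^j)`. -/
noncomputable def inc (K : Type*) [Field K] {B : Type*} [CommRing B] [Algebra K B] (b : B)
    (j : ℕ) : ℕ :=
  Module.finrank K (LinearMap.ker (LinearMap.mulLeft K b) ⊓
      LinearMap.range (LinearMap.mulLeft K (b ^ j)) : Submodule K B)

lemma gd_succ (b : B) (j : ℕ) : gd K b (j + 1) = gd K b j + inc K b j := by
  have h1 := gd_add_rk (K := K) b j
  have h2 := gd_add_rk (K := K) b (j + 1)
  have h3 := rk_mul_add (K := K) b (b ^ j)
  rw [← pow_succ'] at h3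
  unfold inc
  omega

lemma inc_antitone (b : B) {i j : ℕ} (h : i ≤ j) : inc K b j ≤ inc K b i :=
  Submodule.finrank_mono (inf_le_inf_left _ (range_antitone b i j h))

lemma gd_eq_sum (b : B) (j : ℕ) :
    gd K b j = ∑ i ∈ Finset.range j, inc K b i := by
  induction j with
  | zero =>
    simp only [Finset.range_zero, Finset.sum_empty]
    unfold gd
    rw [pow_zero, Ideal.span_singleton_one]
    have : Subsingleton (B ⧸ (⊤ : Ideal B)) := Ideal.Quotient.subsingleton_iff.mpr rfl
    exact Module.finrank_zero_of_subsingleton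
  | succ j ih => rw [gd_succ, Finset.sum_range_succ, ih]

lemma mul_inc_le (b : B) (j : ℕ) : (j + 1) * inc K b j ≤ Module.finrank K B := by
  have h1 := gd_add_rk (K := K) b (j + 1)
  have h2 : (j + 1) * inc K b j ≤ gd K b (j + 1) := by
    rw [gd_eq_sum]
    calc (j + 1) * inc K b j = ∑ _i ∈ Finset.range (j + 1), inc K b j := by simp
      _ ≤ _ := Finset.sum_le_sum fun i hi =>
        inc_antitone b (Nat.lt_succ_iff.mp (Finset.mem_range.mp hi))
  omega

end

end Pool.Agent.Helper73_HK
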