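import Mathlib
import Pool.Agent.Helper73_HK.Rank

/-!
# The numbers `dim K[x,y]/(x^q, y^q, H)`
-/

open MvPolynomial

namespace Pool.Agent.Helper73_HK

/-- `K[x,y]/(x^q,y^q)`. -/
abbrev Bq (K : Type*) [Field K] (q : ℕ) : Type _ :=
  MvPolynomial (Fin 2) K ⧸ powIdeal (Fin 2) K q

/-- the class of a polynomial. -/
noncomputable def cl {K : Type*} [Field K] (q : ℕ) (H : MvPolynomial (Fin 2) K) : Bq K q :=
  Ideal.Quotient.mk _ H

section

variable {K : Type*} [Field K]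

instance instFiniteBq (q : ℕ) : Module.Finite K (Bq K q) :=
  finite_quot_powIdeal (ι := Fin 2) (C := K) q K

lemma finrank_Bq (q : ℕ) : Module.finrank K (Bq K q) = q ^ 2 := by
  have := finrank_quot_powIdeal (ι := Fin 2) (C := K) q K
  simpa using this

/-- `dim K[x,y]/(x^q,y^q,H)`. -/
noncomputable def Gq (q : ℕ) (H : MvPolynomial (Fin 2) K) : ℕ :=
  Module.finrank K (MvPolynomial (Fin 2) K ⧸ (powIdeal (Fin 2) K q ⊔ Ideal.span {H}))

lemma Gq_eq (q : ℕ) (H : MvPolynomial (Fin 2) K) :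
    Gq q H = Module.finrank K (Bq K q ⧸ Ideal.span {cl q H}) := by
  unfold Gq
  have e := DoubleQuot.quotQuotEquivQuotSupₐ K (powIdeal (Fin 2) K q) (Ideal.span {H})
  have h : (Ideal.span {H}).map (Ideal.Quotient.mkₐ K (powIdeal (Fin 2) K q)) =
      Ideal.span {cl q H} := by
    rw [Ideal.map_span, Set.image_singleton]
    rfl
  rw [h] at e
  exact e.symm.toLinearEquiv.finrank_eq

lemma Gq_pow (q : ℕ) (h : MvPolynomial (Fin 2) K) (j : ℕ) :
    Gq q (h ^ j) = gd K (cl q h) j := by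
  rw [Gq_eq]
  rfl

lemma Gq_add_rk (q : ℕ) (H : MvPolynomial (Fin 2) K) :
    Gq q H + rk K (cl q H) = q ^ 2 := by
  rw [Gq_eq, finrank_quot_add_rk, finrank_Bq]

end

end Pool.Agent.Helper73_HK
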