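import Mathlib
import Pool.Agent.Helper73_HK.Plane

/-!
# Counting monomials in two variables, and the rank bounds
-/

open MvPolynomial

namespace Pool.Agent.Helper73_HK

/-- pairs `(a,b)` with `a + b < n`. -/
def Tri (n : ℕ) : Finset (ℕ × ℕ) := (Finset.range n).biUnion fun k => Finset.HasAntidiagonal.antidiagonal k

lemma mem_Tri {n : ℕ} {p : ℕ × ℕ} : p ∈ Tri n ↔ p.1 + p.2 < n := by
  simp [Tri]

lemma card_Tri (n : ℕ) : 2 * (Tri n).card = n * (n + 1) := by
  have h : (Tri n).card = ∑ k ∈ Finset.range n, (k + 1) := by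
    unfold Tri
    rw [Finset.card_biUnion]
    · simp
    · intro a _ b _ hab
      rw [Function.onFun, Finset.disjoint_left]
      intro p hp hq
      rw [Finset.HasAntidiagonal.mem_antidiagonal] at hp hq
      exact hab (hp.symm.trans hq)
  rw [h]
  clear h
  induction n with
  | zero => simp
  | succ n ih =>
    rw [Finset.sum_range_succ, mul_add, ih]
    ring

/-- exponent vectors in two variables. -/
noncomputable def ex (p : ℕ × ℕ) : Fin 2 →₀ ℕ :=
  Finsupp.equivFunOnFinite.symm ![p.1, p.2]

@[simp] lemma ex_zero (p : ℕ × ℕ) : ex p 0 = p.1 := rfl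
@[simp] lemma ex_one (p : ℕ × ℕ) : ex p 1 = p.2 := rfl

lemma ex_eta (m : Fin 2 →₀ ℕ) : ex (m 0, m 1) = m := by
  ext i
  fin_cases i <;> rfl

lemma ex_injective : Function.Injective ex := by
  intro p p' h
  have h0 := DFunLike.congr_fun h 0
  have h1 := DFunLike.congr_fun h 1
  simp only [ex_zero, ex_one] at h0 h1
  exact Prod.ext h0 h1

section

variable {K : Type*} [Field K]

/-- Polynomials with all monomials of total degree `< n`. -/
noncomputable def Vlow (K : Type*) [Field K] (n : ℕ) : Submodule K (MvPolynomial (Fin 2) K) :=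
  restrictSupport K {m | m 0 + m 1 < n}

lemma mem_Vlow {n : ℕ} {P : MvPolynomial (Fin 2) K} :
    P ∈ Vlow K n ↔ ∀ m ∈ P.support, m 0 + m 1 < n := by
  unfold Vlow
  rw [mem_restrictSupport_iff]
  rfl

lemma setEquivTri (n : ℕ) : Nonempty ({m : Fin 2 →₀ ℕ | m 0 + m 1 < n} ≃ Tri n) := by
  refine ⟨⟨fun m => ⟨(m.1 0, m.1 1), mem_Tri.mpr m.2⟩, fun p => ⟨ex p.1, ?_⟩, ?_, ?_⟩⟩
  · have := mem_Tri.mp p.2
    simpa using this
  · intro m
    exact Subtype.ext (ex_eta m.1)
  · intro p
    rfl

instance finite_Vlow (n : ℕ) : Module.Finite K (Vlow K n) := by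
  obtain ⟨e⟩ := setEquivTri n
  have : Finite {m : Fin 2 →₀ ℕ | m 0 + m 1 < n} := Finite.of_equiv _ e.symm
  exact Module.Finite.of_basis (basisRestrictSupport K {m : Fin 2 →₀ ℕ | m 0 + m 1 < n})

lemma finrank_Vlow (n : ℕ) : Module.finrank K (Vlow K n) = (Tri n).card := by
  obtain ⟨e⟩ := setEquivTri n
  have : Finite {m : Fin 2 →₀ ℕ | m 0 + m 1 < n} := Finite.of_equiv _ e.symm
  unfold Vlow
  rw [Module.finrank_eq_nat_card_basis
    (basisRestrictSupport K {m : Fin 2 →₀ ℕ | m 0 + m 1 < n}), Nat.card_congr e]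
  simp

/-- The image of the monomials of large degree in `K[x,y]/(x^q,y^q)`. -/
lemma finrank_high (q r : ℕ) (hr : r ≤ q) :
    ∃ W : Submodule K (Bq K q), Module.finrank K W ≤ (Tri (r - 1)).card ∧
      ∀ P : MvPolynomial (Fin 2) K, (∀ m ∈ P.support, 2 * q - r ≤ m 0 + m 1) → cl q P ∈ W := by
  classical
  let U : Finset (Bq K q) := (Tri (r - 1)).image fun p =>
    cl q (monomial (ex (q - 1 - p.1, q - 1 - p.2)) (1 : K))
  refine ⟨Submodule.span K (U : Set (Bq K q)), ?_, ?_⟩
  · refine (finrank_span_finset_le_card U).trans Finset.card_image_le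
  · intro P hP
    have h0 : cl q P = ∑ m ∈ P.support, cl q (monomial m (coeff m P)) := by
      conv_lhs => rw [P.as_sum]
      unfold cl
      rw [map_sum]
    rw [h0]
    refine Submodule.sum_mem _ fun m hm => ?_
    by_cases hbox : m 0 < q ∧ m 1 < q
    · have hm2 := hP m hm
      have hmem : (q - 1 - m 0, q - 1 - m 1) ∈ Tri (r - 1) := by
        rw [mem_Tri]
        simp only
        omega
      have h1 : monomial m (coeff m P) = C (coeff m P) *
          monomial (ex (q - 1 - (q - 1 - m 0), q - 1 - (q - 1 - m 1))) (1 : K) := by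
        rw [C_mul_monomial, mul_one]
        congr 1
        rw [show q - 1 - (q - 1 - m 0) = m 0 by omega, show q - 1 - (q - 1 - m 1) = m 1 by omega,
          ex_eta]
      have h2 : cl q (monomial m (coeff m P)) = coeff m P • cl q (monomial
          (ex (q - 1 - (q - 1 - m 0), q - 1 - (q - 1 - m 1))) (1 : K)) := by
        rw [h1, C_mul']
        exact map_smul (Ideal.Quotient.mkₐ K (powIdeal (Fin 2) K q)) _ _
      rw [h2]
      refine Submodule.smul_mem _ _ (Submodule.subset_span ?_)
      simp only [U, Finset.coe_image, Set.mem_image, Finset.mem_coe]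
      exact ⟨_, hmem, rfl⟩
    · have : ∃ i, q ≤ m i := by
        by_contra hne
        push Not at hne
        exact hbox ⟨hne 0, hne 1⟩
      obtain ⟨i, hi⟩ := this
      have h3 : cl q (monomial m (coeff m P)) = 0 := by
        unfold cl
        rw [Ideal.Quotient.eq_zero_iff_mem]
        exact monomial_mem_powIdeal q hi _
      rw [h3]
      exact Submodule.zero_mem _


/-- Multiplication by `H` followed by the projection to `K[x,y]/(x^q,y^q)`. -/
noncomputable def mu (q : ℕ) (H : MvPolynomial (Fin 2) K) :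
    MvPolynomial (Fin 2) K →ₗ[K] Bq K q :=
  (Ideal.Quotient.mkₐ K (powIdeal (Fin 2) K q)).toLinearMap ∘ₗ LinearMap.mulLeft K H

lemma mu_apply (q : ℕ) (H s : MvPolynomial (Fin 2) K) : mu q H s = cl q (H * s) := rfl

lemma range_mu (q : ℕ) (H : MvPolynomial (Fin 2) K) :
    LinearMap.range (mu q H) = LinearMap.range (LinearMap.mulLeft K (cl q H)) := by
  ext x
  constructor
  · rintro ⟨s, rfl⟩
    refine ⟨cl q s, ?_⟩
    rw [mu_apply]
    simp [cl]
  · rintro ⟨s, rfl⟩
    obtain ⟨s, rfl⟩ := Ideal.Quotient.mk_surjective s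
    refine ⟨s, ?_⟩
    rw [mu_apply]
    simp [cl]

lemma split_low (n : ℕ) (s : MvPolynomial (Fin 2) K) :
    ∃ a ∈ Vlow K n, ∃ b : MvPolynomial (Fin 2) K, s = a + b ∧
      ∀ m ∈ b.support, n ≤ m 0 + m 1 := by
  classical
  refine ⟨∑ m ∈ s.support.filter (fun m => m 0 + m 1 < n), monomial m (coeff m s), ?_,
    ∑ m ∈ s.support.filter (fun m => ¬ (m 0 + m 1 < n)), monomial m (coeff m s), ?_, ?_⟩
  · refine Submodule.sum_mem _ fun m hm => ?_
    unfold Vlow
    rw [monomial_mem_restrictSupport]
    left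
    exact (Finset.mem_filter.mp hm).2
  · conv_lhs => rw [s.as_sum]
    rw [Finset.sum_filter_add_sum_filter_not]
  · intro m hm
    rw [mem_support_iff, coeff_sum] at hm
    by_contra hlt
    apply hm
    refine Finset.sum_eq_zero fun m' hm' => ?_
    rw [coeff_monomial, if_neg]
    rintro rfl
    exact hlt (not_lt.mp (Finset.mem_filter.mp hm').2)

/-- The basic upper bound for the rank of multiplication by a homogeneous polynomial, improved by
a kernel element of small degree. -/
theorem rank_bound (q r D s t : ℕ) (hr : r ≤ q) (hD : D + 2 * r = 2 * q)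
    (H c : MvPolynomial (Fin 2) K) (hH : H.IsHomogeneous D) (hc : c.IsHomogeneous s)
    (hc0 : c ≠ 0) (hst : s + t ≤ r) (hcH : c * H ∈ powIdeal (Fin 2) K q) :
    2 * rk K (cl q H) + t * (t + 1) ≤ 2 * r ^ 2 := by
  obtain ⟨W, hW, hWmem⟩ := finrank_high (K := K) q r hr
  let μ := mu q H
  let μ1 : Vlow K r →ₗ[K] Bq K q := μ.domRestrict (Vlow K r)
  -- the range
  have hrange : LinearMap.range (LinearMap.mulLeft K (cl q H)) ≤ LinearMap.range μ1 ⊔ W := by
    rw [← range_mu]
    rintro _ ⟨s, rfl⟩
    obtain ⟨a, ha, b, rfl, hb⟩ := split_low r s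
    rw [map_add]
    refine Submodule.add_mem_sup ⟨⟨a, ha⟩, rfl⟩ ?_
    rw [mu_apply]
    apply hWmem
    intro m hm
    have h1 := support_mul H b hm
    rw [Finset.mem_add] at h1
    obtain ⟨m1, hm1, m2, hm2, rfl⟩ := h1
    have h2 := hb m2 hm2
    have h3 := hH (mem_support_iff.mp hm1)
    rw [Finsupp.weight_apply, Finsupp.sum_fintype _ _ (by simp)] at h3
    simp only [Fin.sum_univ_two, Pi.one_apply, smul_eq_mul, mul_one] at h3
    simp only [Finsupp.coe_add, Pi.add_apply]
    omega
  have h1 : rk K (cl q H) ≤ Module.finrank K (LinearMap.range μ1) + (Tri (r - 1)).card := by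
    unfold rk
    refine (Submodule.finrank_mono hrange).trans ?_
    refine (Submodule.finrank_add_le_finrank_add_finrank _ _).trans ?_
    exact Nat.add_le_add_left hW _
  have h2 := LinearMap.finrank_range_add_finrank_ker μ1
  rw [finrank_Vlow] at h2
  -- the kernel
  have h3 : (Tri t).card ≤ Module.finrank K (LinearMap.ker μ1) := by
    rw [← finrank_Vlow (K := K)]
    have hmem : ∀ P ∈ Vlow K t, c * P ∈ Vlow K r := by
      intro P hP
      rw [mem_Vlow] at hP ⊢
      intro m hm
      have h1 := support_mul c P hm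
      rw [Finset.mem_add] at h1
      obtain ⟨m1, hm1, m2, hm2, rfl⟩ := h1
      have h2 := hP m2 hm2
      have h3 := hc (mem_support_iff.mp hm1)
      rw [Finsupp.weight_apply, Finsupp.sum_fintype _ _ (by simp)] at h3
      simp only [Fin.sum_univ_two, Pi.one_apply, smul_eq_mul, mul_one] at h3
      simp only [Finsupp.coe_add, Pi.add_apply]
      omega
    let κ : Vlow K t →ₗ[K] Vlow K r :=
      ((LinearMap.mulLeft K c).domRestrict (Vlow K t)).codRestrict (Vlow K r)
        (fun P => hmem P.1 P.2)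
    have hκ : ∀ P, κ P ∈ LinearMap.ker μ1 := by
      intro P
      rw [LinearMap.mem_ker]
      change cl q (H * (c * P.1)) = 0
      unfold cl
      rw [Ideal.Quotient.eq_zero_iff_mem, show H * (c * P.1) = P.1 * (c * H) by ring]
      exact Ideal.mul_mem_left _ _ hcH
    let κ' : Vlow K t →ₗ[K] LinearMap.ker μ1 := κ.codRestrict _ hκ
    refine LinearMap.finrank_le_finrank_of_injective (f := κ') ?_
    intro P P' h
    have h' : c * P.1 = c * P'.1 := congrArg (fun z => (z.1 : Vlow K r).1) h
    exact Subtype.ext (mul_left_cancel₀ hc0 h')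
  have c1 := card_Tri r
  have c2 := card_Tri (r - 1)
  have c3 := card_Tri t
  have c4 : r * (r + 1) + (r - 1) * (r - 1 + 1) = 2 * r ^ 2 := by
    rcases r with _ | r
    · rfl
    · simp only [Nat.add_sub_cancel]; ring
  omega

/-- A lower bound for the rank: if some linear functionals on `K[x,y]/(x^q,y^q)` separate some
multiples of `H`. -/
theorem le_rank_of_det {n : Type*} [Fintype n] [DecidableEq n] (q : ℕ)
    (H : MvPolynomial (Fin 2) K) (φ : MvPolynomial (Fin 2) K →ₗ[K] (n → K))
    (hφ : ∀ P ∈ powIdeal (Fin 2) K q, φ P = 0) (v : n → MvPolynomial (Fin 2) K)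
    (hdet : (Matrix.of fun i j => φ (H * v j) i).det ≠ 0) :
    Fintype.card n ≤ rk K (cl q H) := by
  classical
  let A : Matrix n n K := Matrix.of fun i j => φ (H * v j) i
  let f : (n → K) →ₗ[K] Bq K q := mu q H ∘ₗ (Fintype.linearCombination K v)
  have hf : Function.Injective f := by
    rw [← LinearMap.ker_eq_bot, LinearMap.ker_eq_bot']
    intro x hx
    have h1 : φ (H * ∑ i, x i • v i) = 0 := by
      apply hφ
      have : cl q (H * ∑ i, x i • v i) = 0 := hx
      rwa [cl, Ideal.Quotient.eq_zero_iff_mem] at this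
    have h2 : A.mulVec x = 0 := by
      rw [← h1]
      ext i
      rw [Matrix.mulVec, dotProduct, Finset.mul_sum, map_sum, Finset.sum_apply]
      refine Finset.sum_congr rfl fun j _ => ?_
      rw [mul_smul_comm, map_smul, Pi.smul_apply, smul_eq_mul, mul_comm]
      rfl
    exact Matrix.eq_zero_of_mulVec_eq_zero hdet h2
  have hle : LinearMap.range f ≤ LinearMap.range (LinearMap.mulLeft K (cl q H)) := by
    rw [← range_mu]
    exact LinearMap.range_comp_le_range _ _
  unfold rk
  calc Fintype.card n = Module.finrank K (n → K) := by simp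
    _ = Module.finrank K (LinearMap.range f) := (LinearMap.finrank_range_of_inj hf).symm
    _ ≤ _ := Submodule.finrank_mono hle

end

end Pool.Agent.Helper73_HK
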