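import Mathlib
import Pool.Agent.Helper73_HK.Count

/-!
# The Frobenius inequality `dim S/I^[p] ≤ p^2 dim S/I`
-/

open MvPolynomial

namespace Pool.Agent.Helper73_HK

section

variable {K : Type*} [Field K] (p : ℕ) [Fact p.Prime] [CharP K p]

theorem finrank_frob_le (I I' : Ideal (MvPolynomial (Fin 2) K))
    [Module.Finite K (MvPolynomial (Fin 2) K ⧸ I)] (h : ∀ u ∈ I, u ^ p ∈ I') :
    Module.finrank K (MvPolynomial (Fin 2) K ⧸ I') ≤
      p ^ 2 * Module.finrank K (MvPolynomial (Fin 2) K ⧸ I) := by
  classical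
  have hp : 0 < p := (Fact.out : p.Prime).pos
  let b := Module.finBasis K (MvPolynomial (Fin 2) K ⧸ I)
  choose l hl using fun i => Ideal.Quotient.mk_surjective (b i)
  let w : (Fin 2 → Fin p) × Fin (Module.finrank K (MvPolynomial (Fin 2) K ⧸ I)) →
      MvPolynomial (Fin 2) K ⧸ I' :=
    fun x => Ideal.Quotient.mk I' (monomial (boxExp x.1) 1 * l x.2 ^ p)
  have hsmul : ∀ (J : Ideal (MvPolynomial (Fin 2) K)) (c : K) (P : MvPolynomial (Fin 2) K),
      Ideal.Quotient.mk J (C c * P) = c • Ideal.Quotient.mk J P := by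
    intro J c P
    rw [C_mul']
    exact map_smul (Ideal.Quotient.mkₐ K J) _ _
  have hspan : Submodule.span K (Set.range w) = ⊤ := by
    rw [eq_top_iff]
    rintro x -
    obtain ⟨P, rfl⟩ := Ideal.Quotient.mk_surjective x
    have hmon : ∀ m : Fin 2 →₀ ℕ, Ideal.Quotient.mk I' (monomial m (1 : K)) ∈
        Submodule.span K (Set.range w) := by
      intro m
      let α : Fin 2 → Fin p := fun i => ⟨m i % p, Nat.mod_lt _ hp⟩
      let β : Fin 2 →₀ ℕ := Finsupp.equivFunOnFinite.symm fun i => m i / p
      have hm0 : m = boxExp α + p • β := by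
        ext i
        simp only [Finsupp.coe_add, Finsupp.coe_smul, Pi.add_apply, Pi.smul_apply, boxExp_apply,
          smul_eq_mul, α, β]
        exact (Nat.mod_add_div (m i) p).symm
      have hm : monomial m (1 : K) = monomial (boxExp α) 1 * (monomial β) 1 ^ p := by
        rw [monomial_pow, monomial_mul, one_pow, mul_one, ← hm0]
      -- expand the class of `x^β`
      let c := b.repr (Ideal.Quotient.mk I (monomial β (1 : K)))
      have hc : monomial β (1 : K) - ∑ i, C (c i) * l i ∈ I := by
        rw [← Ideal.Quotient.eq_zero_iff_mem, map_sub, sub_eq_zero, map_sum]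
        rw [← b.sum_repr (Ideal.Quotient.mk I (monomial β (1 : K)))]
        refine Finset.sum_congr rfl fun i _ => ?_
        rw [hsmul, hl]
      have hc2 := h _ hc
      rw [sub_pow_char, sum_pow_char] at hc2
      have hc3 : Ideal.Quotient.mk I' (monomial m (1 : K)) =
          ∑ i, (c i) ^ p • w (α, i) := by
        have h4 : monomial m (1 : K) - ∑ i, C ((c i) ^ p) * (monomial (boxExp α) 1 * l i ^ p) ∈
            I' := by
          have h5 := Ideal.mul_mem_left I' (monomial (boxExp α) (1 : K)) hc2
          convert h5 using 1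
          rw [mul_sub, ← hm, Finset.mul_sum]
          congr 1
          refine Finset.sum_congr rfl fun i _ => ?_
          rw [mul_pow, C_pow]
          ring
        rw [← Ideal.Quotient.eq_zero_iff_mem, map_sub, sub_eq_zero, map_sum] at h4
        rw [h4]
        refine Finset.sum_congr rfl fun i _ => ?_
        rw [hsmul]
      rw [hc3]
      exact Submodule.sum_mem _ fun i _ =>
        Submodule.smul_mem _ _ (Submodule.subset_span ⟨_, rfl⟩)
    rw [P.as_sum, map_sum]
    refine Submodule.sum_mem _ fun m _ => ?_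
    have : monomial m (coeff m P) = C (coeff m P) * monomial m 1 := by
      rw [C_mul_monomial, mul_one]
    rw [this, hsmul]
    exact Submodule.smul_mem _ _ (hmon m)
  have h1 := finrank_range_le_card (R := K) w
  rw [Set.finrank, hspan, finrank_top] at h1
  refine h1.trans (le_of_eq ?_)
  simp

/-- The `p`-th power of an element of an ideal lies in the ideal generated by the `p`-th powers of
the generators. -/
lemma pow_mem_span_of_mem_span {S : Type*} [CommRing S] [CharP S p] {ι : Type*} (g : ι → S)
    {u : S} (hu : u ∈ Ideal.span (Set.range g)) :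
    u ^ p ∈ Ideal.span (Set.range fun i => g i ^ p) := by
  have h : Ideal.span (Set.range g) ≤
      (Ideal.span (Set.range fun i => g i ^ p)).comap (frobenius S p) := by
    rw [Ideal.span_le]
    rintro _ ⟨i, rfl⟩
    exact Ideal.subset_span ⟨i, rfl⟩
  exact h hu

lemma pow_mem_sup (q : ℕ) (H : MvPolynomial (Fin 2) K) :
    ∀ u ∈ powIdeal (Fin 2) K q ⊔ Ideal.span {H},
      u ^ p ∈ powIdeal (Fin 2) K (p * q) ⊔ Ideal.span {H ^ p} := by
  have h : powIdeal (Fin 2) K q ⊔ Ideal.span {H} ≤
      (powIdeal (Fin 2) K (p * q) ⊔ Ideal.span {H ^ p}).comap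
        (frobenius (MvPolynomial (Fin 2) K) p) := by
    rw [sup_le_iff]
    constructor
    · unfold powIdeal
      rw [Ideal.span_le]
      rintro _ ⟨i, rfl⟩
      refine Ideal.mem_sup_left (Ideal.subset_span ⟨i, ?_⟩)
      simp [frobenius_def, ← pow_mul, mul_comm]
    · rw [Ideal.span_le, Set.singleton_subset_iff]
      exact Ideal.mem_sup_right (Ideal.subset_span rfl)
  intro u hu
  exact h hu

omit [Fact p.Prime] [CharP K p] in
lemma finite_of_powIdeal_le (q : ℕ) (J : Ideal (MvPolynomial (Fin 2) K))
    (hJ : powIdeal (Fin 2) K q ≤ J) : Module.Finite K (MvPolynomial (Fin 2) K ⧸ J) := by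
  have hs : Function.Surjective (Ideal.Quotient.factorₐ K hJ) := by
    intro x
    obtain ⟨x, rfl⟩ := Ideal.Quotient.mk_surjective x
    exact ⟨Ideal.Quotient.mk _ x, rfl⟩
  exact Module.Finite.of_surjective (Ideal.Quotient.factorₐ K hJ).toLinearMap hs

instance finite_quot_sup (q : ℕ) (H : MvPolynomial (Fin 2) K) :
    Module.Finite K (MvPolynomial (Fin 2) K ⧸ (powIdeal (Fin 2) K q ⊔ Ideal.span {H})) :=
  finite_of_powIdeal_le q _ le_sup_left

theorem Gq_frob_le (q : ℕ) (H : MvPolynomial (Fin 2) K) :
    Gq (p * q) (H ^ p) ≤ p ^ 2 * Gq q H :=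
  finrank_frob_le p _ _ (pow_mem_sup p q H)

end

end Pool.Agent.Helper73_HK
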