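import Mathlib

/-!
# Construction of the small kernel element
-/

open Polynomial

namespace Pool.Agent.Helper73_HK

section

variable {K : Type*} [Field K]

/-- Admissible pairs of polynomials. -/
structure Adm (a : K) (n : ℕ) (U V : K[X]) : Prop where
  dvd0 : X ^ n ∣ U
  dvd1 : (X + 1) ^ n ∣ U + V
  dvda : (X + C a) ^ n ∣ U + C a * V
  degU : U.natDegree < 2 * n
  degV : V.natDegree < n
  ne : ¬ (U = 0 ∧ V = 0)

lemma coprime01 : IsCoprime (X : K[X]) (X + 1) := ⟨-1, 1, by ring⟩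

lemma coprime0a {a : K} (ha : a ≠ 0) : IsCoprime (X : K[X]) (X + C a) := by
  refine ⟨-C a⁻¹, C a⁻¹, ?_⟩
  have : C a⁻¹ * C a = (1 : K[X]) := by rw [← C_mul, inv_mul_cancel₀ ha, C_1]
  linear_combination this

lemma coprime1a {a : K} (ha : a ≠ 1) : IsCoprime (X + 1 : K[X]) (X + C a) := by
  have h : a - 1 ≠ 0 := sub_ne_zero.mpr ha
  refine ⟨-C (a - 1)⁻¹, C (a - 1)⁻¹, ?_⟩
  have : C (a - 1)⁻¹ * (C a - 1) = (1 : K[X]) := by
    rw [← C_1, ← C_sub, ← C_mul, inv_mul_cancel₀ h]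
  linear_combination this

/-- `t (t+1) (t+a)`. -/
noncomputable def dd (a : K) : K[X] := X * (X + 1) * (X + C a)

lemma dd_monic (a : K) : (dd a).Monic := by
  unfold dd
  exact (monic_X.mul (by simpa using monic_X_add_C (1 : K))).mul (monic_X_add_C a)

lemma dd_natDegree (a : K) : (dd a).natDegree = 3 := by
  unfold dd
  have h1 : (X + 1 : K[X]).Monic := by simpa using monic_X_add_C (1 : K)
  rw [(monic_X.mul h1).natDegree_mul (monic_X_add_C a), monic_X.natDegree_mul h1, natDegree_X,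
    natDegree_X_add_C, show (X + 1 : K[X]) = X + C 1 by simp, natDegree_X_add_C]

lemma dd_dvd {a : K} (ha0 : a ≠ 0) (ha1 : a ≠ 1) (n : ℕ) {N : K[X]} (h0 : X ^ n ∣ N)
    (h1 : (X + 1) ^ n ∣ N) (h2 : (X + C a) ^ n ∣ N) : dd a ^ n ∣ N := by
  unfold dd
  rw [mul_pow, mul_pow]
  have c01 : IsCoprime (X ^ n : K[X]) ((X + 1) ^ n) := coprime01.pow
  have c2 : IsCoprime (X ^ n * (X + 1) ^ n : K[X]) ((X + C a) ^ n) :=
    IsCoprime.mul_left (coprime0a ha0).pow (coprime1a ha1).pow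
  exact c2.mul_dvd (c01.mul_dvd h0 h1) h2

/-- cancelling in divisibility. -/
lemma dvd_of_dvd_mul_pow {A B N : K[X]} {n P : ℕ} (hnP : n ≤ P) (hA : A ≠ 0)
    (hc : IsCoprime A B) (h : A ^ P ∣ (A * B) ^ n * N) : A ^ (P - n) ∣ N := by
  obtain ⟨k, rfl⟩ := Nat.exists_eq_add_of_le hnP
  rw [Nat.add_sub_cancel_left]
  rw [pow_add, mul_pow, mul_assoc] at h
  have h2 := (mul_dvd_mul_iff_left (pow_ne_zero n hA)).mp h
  exact (hc.pow (m := k) (n := n)).dvd_of_dvd_mul_left h2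

variable (p : ℕ) [Fact p.Prime] [CharP K p]

/-- The reflection step. -/
theorem Adm.step {a : K} (ha0 : a ≠ 0) (ha1 : a ≠ 1) {n i : ℕ} {U V : K[X]}
    (h : Adm a n U V) (hn : n < p ^ i) (hL : a ^ p ^ i ≠ a) :
    ∃ U' V' : K[X], Adm a (p ^ i - n) U' V' := by
  obtain ⟨P, hP⟩ : ∃ P, P = p ^ i := ⟨_, rfl⟩
  obtain ⟨L, hLdef⟩ : ∃ L, L = a ^ P := ⟨_, rfl⟩
  have hP1 : (X + 1 : K[X]) ^ P = X ^ P + 1 := by
    rw [hP, add_pow_char_pow, one_pow]
  have hPa : (X + C a : K[X]) ^ P = X ^ P + C L := by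
    rw [hLdef, hP, add_pow_char_pow, C_pow]
  rw [← hP] at hn hL ⊢
  rw [← hLdef] at hL
  set u : K[X] := X ^ P with hu
  let M11 : K[X] := C a * (C (a - 1) * u ^ 2 + C (a - L) * u)
  let M12 : K[X] := C (a * (L - 1)) * u
  let M22 : K[X] := C (a - L) * u + C (L * (a - 1))
  have e1 : M11 + M12 = C (a * (a - 1)) * u * (X + 1) ^ P := by
    simp only [M11, M12, hP1, C_mul, C_sub, C_1]; ring
  have e2 : M12 + M22 = C (L * (a - 1)) * (X + 1) ^ P := by
    simp only [M22, M12, hP1, C_mul, C_sub, C_1]; ring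
  have e3 : M11 + C a * M12 = C (a * (a - 1)) * u * (X + C a) ^ P := by
    simp only [M11, M12, hPa, C_mul, C_sub, C_1]; ring
  have e4 : M12 + C a * M22 = C (a * (a - 1)) * (X + C a) ^ P := by
    simp only [M22, M12, hPa, C_mul, C_sub, C_1]; ring
  let N1 := M11 * V - M12 * U
  let N2 := M12 * V - M22 * U
  have hN1X : X ^ P ∣ N1 := by
    refine dvd_sub (Dvd.dvd.mul_right ?_ _) (Dvd.dvd.mul_right ?_ _)
    · exact ⟨C a * (C (a - 1) * u + C (a - L)), by simp only [M11, hu]; ring⟩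
    · exact ⟨C (a * (L - 1)), by simp only [M12, hu]; ring⟩
  have hN11 : (X + 1) ^ n ∣ N1 := by
    have : N1 = (M11 + M12) * V - M12 * (U + V) := by simp only [N1]; ring
    rw [this, e1]
    refine dvd_sub (Dvd.dvd.mul_right (Dvd.dvd.mul_left (pow_dvd_pow _ hn.le) _) _)
      (Dvd.dvd.mul_left h.dvd1 _)
  have hN1a : (X + C a) ^ n ∣ N1 := by
    have : N1 = (M11 + C a * M12) * V - M12 * (U + C a * V) := by simp only [N1]; ring
    rw [this, e3]
    refine dvd_sub (Dvd.dvd.mul_right (Dvd.dvd.mul_left (pow_dvd_pow _ hn.le) _) _)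
      (Dvd.dvd.mul_left h.dvda _)
  have hN2X : X ^ n ∣ N2 := by
    refine dvd_sub (Dvd.dvd.mul_right ?_ _) (Dvd.dvd.mul_left h.dvd0 _)
    exact Dvd.dvd.mul_left (pow_dvd_pow _ hn.le) _
  have hN21 : (X + 1) ^ n ∣ N2 := by
    have : N2 = (M12 + M22) * V - M22 * (U + V) := by simp only [N2]; ring
    rw [this, e2]
    refine dvd_sub (Dvd.dvd.mul_right (Dvd.dvd.mul_left (pow_dvd_pow _ hn.le) _) _)
      (Dvd.dvd.mul_left h.dvd1 _)
  have hN2a : (X + C a) ^ n ∣ N2 := by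
    have : N2 = (M12 + C a * M22) * V - M22 * (U + C a * V) := by simp only [N2]; ring
    rw [this, e4]
    refine dvd_sub (Dvd.dvd.mul_right (Dvd.dvd.mul_left (pow_dvd_pow _ hn.le) _) _)
      (Dvd.dvd.mul_left h.dvda _)
  obtain ⟨U', hU'⟩ := dd_dvd ha0 ha1 n ((pow_dvd_pow _ hn.le).trans hN1X) hN11 hN1a
  obtain ⟨V', hV'⟩ := dd_dvd ha0 ha1 n hN2X hN21 hN2a
  have hX1 : (X + 1 : K[X]) ≠ 0 := by
    rw [show (X + 1 : K[X]) = X + C 1 by simp]; exact X_add_C_ne_zero 1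
  have hXa : (X + C a : K[X]) ≠ 0 := X_add_C_ne_zero a
  have hdd0 : dd a ^ n ≠ 0 := (dd_monic a).pow n |>.ne_zero
  have hdeg : ∀ Z : K[X], Z ≠ 0 → (dd a ^ n * Z).natDegree = 3 * n + Z.natDegree := by
    intro Z hZ
    rw [natDegree_mul hdd0 hZ, natDegree_pow, dd_natDegree, mul_comm n 3]
  have hn0 : 0 < n := lt_of_le_of_lt (Nat.zero_le _) h.degV
  have hud : ∀ (c : K) (k : ℕ), (C c * u ^ k : K[X]).natDegree ≤ k * P := by
    intro c k
    refine (natDegree_C_mul_le _ _).trans ?_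
    rw [hu, ← pow_mul, natDegree_X_pow, mul_comm]
  have hd11 : M11.natDegree ≤ 2 * P := by
    refine (natDegree_C_mul_le _ _).trans ((natDegree_add_le _ _).trans (max_le (hud _ 2) ?_))
    have := hud (a - L) 1
    rw [pow_one] at this
    omega
  have hd12 : M12.natDegree ≤ P := by
    have := hud (a * (L - 1)) 1
    rw [pow_one, one_mul] at this
    exact this
  have hd22 : M22.natDegree ≤ P := by
    refine (natDegree_add_le _ _).trans (max_le ?_ ?_)
    · have := hud (a - L) 1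
      rw [pow_one, one_mul] at this
      exact this
    · rw [natDegree_C]; omega
  have hdU := h.degU
  have hdV := h.degV
  refine ⟨U', V', ?_, ?_, ?_, ?_, ?_, ?_⟩
  · refine dvd_of_dvd_mul_pow (B := (X + 1) * (X + C a)) hn.le X_ne_zero
      (IsCoprime.mul_right coprime01 (coprime0a ha0)) ?_
    rw [show X * ((X + 1) * (X + C a)) = dd a by unfold dd; ring, ← hU']
    exact hN1X
  · refine dvd_of_dvd_mul_pow (B := X * (X + C a)) hn.le hX1
      (IsCoprime.mul_right coprime01.symm (coprime1a ha1)) ?_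
    rw [show (X + 1) * (X * (X + C a)) = dd a by unfold dd; ring, mul_add, ← hU', ← hV']
    have : N1 + N2 = (M11 + M12) * V - (M12 + M22) * U := by simp only [N1, N2]; ring
    rw [this, e1, e2]
    exact dvd_sub (Dvd.dvd.mul_right (Dvd.dvd.mul_left dvd_rfl _) _)
      (Dvd.dvd.mul_right (Dvd.dvd.mul_left dvd_rfl _) _)
  · refine dvd_of_dvd_mul_pow (B := X * (X + 1)) hn.le hXa
      (IsCoprime.mul_right (coprime0a ha0).symm (coprime1a ha1).symm) ?_
    rw [show (X + C a) * (X * (X + 1)) = dd a by unfold dd; ring,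
      show dd a ^ n * (U' + C a * V') = dd a ^ n * U' + C a * (dd a ^ n * V') by ring,
      ← hU', ← hV']
    have : N1 + C a * N2 = (M11 + C a * M12) * V - (M12 + C a * M22) * U := by
      simp only [N1, N2]; ring
    rw [this, e3, e4]
    exact dvd_sub (Dvd.dvd.mul_right (Dvd.dvd.mul_left dvd_rfl _) _)
      (Dvd.dvd.mul_right (Dvd.dvd.mul_left dvd_rfl _) _)
  · by_cases hU0 : U' = 0
    · rw [hU0, natDegree_zero]; omega
    · have h1 := hdeg U' hU0
      rw [← hU'] at h1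
      have h2 : N1.natDegree ≤ 2 * P + n - 1 := by
        refine (natDegree_sub_le _ _).trans (max_le (natDegree_mul_le.trans ?_)
          (natDegree_mul_le.trans ?_)) <;> omega
      omega
  · by_cases hV0 : V' = 0
    · rw [hV0, natDegree_zero]; omega
    · have h1 := hdeg V' hV0
      rw [← hV'] at h1
      have h2 : N2.natDegree ≤ P + 2 * n - 1 := by
        refine (natDegree_sub_le _ _).trans (max_le (natDegree_mul_le.trans ?_)
          (natDegree_mul_le.trans ?_)) <;> omega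
      omega
  · rintro ⟨rfl, rfl⟩
    rw [mul_zero] at hU' hV'
    apply h.ne
    have hdet : M11 * M22 - M12 ^ 2 = C (a * (a - 1) * (a - L)) * u * (X + 1) ^ P *
        (X + C a) ^ P := by
      simp only [M11, M22, M12, hP1, hPa, C_mul, C_sub, C_1]; ring
    have hdet0 : M11 * M22 - M12 ^ 2 ≠ 0 := by
      rw [hdet]
      refine mul_ne_zero (mul_ne_zero (mul_ne_zero ?_ (pow_ne_zero _ X_ne_zero))
        (pow_ne_zero _ hX1)) (pow_ne_zero _ hXa)
      rw [Ne, C_eq_zero]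
      exact mul_ne_zero (mul_ne_zero ha0 (sub_ne_zero.mpr ha1)) (sub_ne_zero.mpr (Ne.symm hL))
    constructor
    · have : (M11 * M22 - M12 ^ 2) * U = M12 * N1 - M11 * N2 := by simp only [N1, N2]; ring
      rw [hU', hV', mul_zero, mul_zero, sub_zero] at this
      exact (mul_eq_zero.mp this).resolve_left hdet0
    · have : (M11 * M22 - M12 ^ 2) * V = M22 * N1 - M12 * N2 := by simp only [N1, N2]; ring
      rw [hU', hV', mul_zero, mul_zero, sub_zero] at this
      exact (mul_eq_zero.mp this).resolve_left hdet0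

/-- the sequence `0, 1, p - 1, p ^ 2 - p + 1, …`. -/
def nn (p : ℕ) : ℕ → ℕ
  | 0 => 0
  | i + 1 => p ^ i - nn p i

omit [Fact p.Prime] in
lemma nn_prop (hp : 2 ≤ p) (i : ℕ) :
    ((p + 1) * nn p i + 1 = p ^ i ∨ (p + 1) * nn p i = p ^ i + 1) ∧ nn p i ≤ p ^ i := by
  induction i with
  | zero => simp [nn]
  | succ i ih =>
    obtain ⟨ih, ih2⟩ := ih
    have h1 : nn p (i + 1) + nn p i = p ^ i := by
      rw [nn]; omega
    have h2 : (p + 1) * nn p (i + 1) + (p + 1) * nn p i = p ^ (i + 1) + p ^ i := by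
      rw [← mul_add, h1]; ring
    constructor
    · omega
    · have : p ^ i ≤ p ^ (i + 1) := Nat.pow_le_pow_right (by omega) (by omega)
      omega

omit [Fact p.Prime] in
lemma nn_lt (hp : 2 ≤ p) (i : ℕ) : nn p i < p ^ i := by
  obtain ⟨h1, -⟩ := nn_prop p hp i
  have h2 : 3 * nn p i ≤ (p + 1) * nn p i := Nat.mul_le_mul_right _ (by omega)
  have h3 : 1 ≤ p ^ i := Nat.one_le_pow _ _ (by omega)
  omega

/-- Admissible pairs along the reflections. -/
theorem exists_adm {a : K} (ha0 : a ≠ 0) (ha1 : a ≠ 1) (m : ℕ)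
    (hm : ∀ j, 1 ≤ j → j < m → a ^ p ^ j ≠ a) (i : ℕ) (hi : i + 1 ≤ m) :
    ∃ U V : K[X], Adm a (nn p (i + 1)) U V := by
  have hp : 2 ≤ p := (Fact.out : p.Prime).two_le
  induction i with
  | zero =>
    refine ⟨X, 1, ?_⟩
    have h1 : nn p (0 + 1) = 1 := by simp [nn]
    rw [h1]
    refine ⟨by simp, by simp, by simp, ?_, ?_, ?_⟩
    · rw [natDegree_X]; norm_num
    · rw [natDegree_one]; norm_num
    · rintro ⟨h, -⟩; exact X_ne_zero h
  | succ i ih =>
    obtain ⟨U, V, h⟩ := ih (by omega)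
    have h2 : nn p (i + 1 + 1) = p ^ (i + 1) - nn p (i + 1) := rfl
    rw [h2]
    exact h.step p ha0 ha1 (nn_lt p hp _) (hm (i + 1) (by omega) (by omega))

/-- The final relation. -/
theorem exists_relation {a : K} (ha0 : a ≠ 0) (ha1 : a ≠ 1) {m : ℕ} (hm1 : 1 ≤ m)
    (hm : ∀ j, 1 ≤ j → j < m → a ^ p ^ j ≠ a) (ham : a ^ p ^ m = a) :
    ∃ c U V : K[X], c ≠ 0 ∧ c.natDegree + 2 * nn p m + 1 ≤ p ^ m ∧
      U.natDegree < 2 * nn p m ∧ dd a ^ nn p m * c = X ^ p ^ m * V - U := by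
  have hp : 2 ≤ p := (Fact.out : p.Prime).two_le
  obtain ⟨k, rfl⟩ := Nat.exists_eq_add_of_le' hm1
  obtain ⟨U, V, h⟩ := exists_adm p ha0 ha1 (k + 1) hm k le_rfl
  set n := nn p (k + 1) with hn
  obtain ⟨Q, hQ⟩ : ∃ Q, Q = p ^ (k + 1) := ⟨_, rfl⟩
  have hnQ : n < Q := hQ ▸ nn_lt p hp (k + 1)
  have hQ1 : (X + 1 : K[X]) ^ Q = X ^ Q + 1 := by
    rw [hQ, add_pow_char_pow, one_pow]
  have hQa : (X + C a : K[X]) ^ Q = X ^ Q + C a := by
    rw [hQ, add_pow_char_pow, ← C_pow, ham]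
  have h3n : 3 * n ≤ Q + 1 := by
    obtain ⟨h1, -⟩ := nn_prop p hp (k + 1)
    have h2 : 3 * nn p (k + 1) ≤ (p + 1) * nn p (k + 1) := Nat.mul_le_mul_right _ (by omega)
    omega
  have hQ2 : 2 ≤ Q := by
    rw [hQ]
    calc 2 ≤ p ^ 1 := by simpa using hp
      _ ≤ p ^ (k + 1) := Nat.pow_le_pow_right (by omega) (by omega)
  rw [← hQ]
  have d0 : X ^ n ∣ X ^ Q * V - U :=
    dvd_sub (Dvd.dvd.mul_right (pow_dvd_pow _ hnQ.le) _) h.dvd0
  have d1 : (X + 1) ^ n ∣ X ^ Q * V - U := by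
    have : X ^ Q * V - U = (X + 1) ^ Q * V - (U + V) := by rw [hQ1]; ring
    rw [this]
    exact dvd_sub (Dvd.dvd.mul_right (pow_dvd_pow _ hnQ.le) _) h.dvd1
  have d2 : (X + C a) ^ n ∣ X ^ Q * V - U := by
    have : X ^ Q * V - U = (X + C a) ^ Q * V - (U + C a * V) := by rw [hQa]; ring
    rw [this]
    exact dvd_sub (Dvd.dvd.mul_right (pow_dvd_pow _ hnQ.le) _) h.dvda
  obtain ⟨c, hc⟩ := dd_dvd ha0 ha1 n d0 d1 d2
  have hdU := h.degU
  have hdV := h.degV
  have hne : X ^ Q * V - U ≠ 0 := by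
    intro h0
    rw [sub_eq_zero] at h0
    by_cases hV : V = 0
    · rw [hV, mul_zero] at h0
      exact h.ne ⟨h0.symm, hV⟩
    · have h1 : (X ^ Q * V).natDegree = Q + V.natDegree := by
        rw [natDegree_mul (pow_ne_zero _ X_ne_zero) hV, natDegree_X_pow]
      rw [h0] at h1
      omega
  have hc0 : c ≠ 0 := by
    rintro rfl
    rw [mul_zero] at hc
    exact hne hc
  have hdeg : (dd a ^ n * c).natDegree = 3 * n + c.natDegree := by
    rw [natDegree_mul ((dd_monic a).pow n |>.ne_zero) hc0, natDegree_pow, dd_natDegree,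
      mul_comm n 3]
  rw [← hc] at hdeg
  have hle : (X ^ Q * V - U).natDegree ≤ Q + n - 1 := by
    refine (natDegree_sub_le _ _).trans (max_le (natDegree_mul_le.trans ?_) ?_)
    · rw [natDegree_X_pow]; omega
    · omega
  exact ⟨c, U, V, hc0, by omega, hdU, hc.symm⟩

end

end Pool.Agent.Helper73_HK
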