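import Mathlib
import Pool.Agent.Helper73_HK.Syz
import Pool.Agent.Helper73_HK.Frob

/-!
# The kernel element in homogeneous form
-/

namespace Pool.Agent.Helper73_HK

open MvPolynomial

/-- The binary quartic `x y (x + y) (x + a y)`. -/
noncomputable def hh {R : Type*} [CommRing R] (a : R) : MvPolynomial (Fin 2) R :=
  X 0 * X 1 * (X 0 + X 1) * (X 0 + C a * X 1)

lemma map_hh {R S : Type*} [CommRing R] [CommRing S] (f : R →+* S) (a : R) :
    map f (hh a) = hh (f a) := by
  simp [hh]

section

variable {K : Type*} [Field K]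

lemma hh_homogeneous (a : K) : (hh a).IsHomogeneous 4 := by
  unfold hh
  have h0 := isHomogeneous_X K (0 : Fin 2)
  have h1 := isHomogeneous_X K (1 : Fin 2)
  have h2 : (X 0 + X 1 : MvPolynomial (Fin 2) K).IsHomogeneous 1 := h0.add h1
  have h3 : (X 0 + C a * X 1 : MvPolynomial (Fin 2) K).IsHomogeneous 1 := by
    refine h0.add ?_
    have := (isHomogeneous_C (Fin 2) a).mul h1
    simpa using this
  exact ((h0.mul h1).mul h2).mul h3

lemma hh_eq (a : K) : hh a = (dd a).homogenize 4 := by
  have h1 : (Polynomial.X : Polynomial K).homogenize 2 = X 0 * X 1 := by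
    rw [Polynomial.homogenize_X (by norm_num)]; simp
  have h2 : (Polynomial.X + 1 : Polynomial K).homogenize 1 = X 0 + X 1 := by
    rw [Polynomial.homogenize_add, Polynomial.homogenize_X (by norm_num),
      Polynomial.homogenize_one]
    simp
  have h3 : (Polynomial.X + Polynomial.C a : Polynomial K).homogenize 1 = X 0 + C a * X 1 := by
    rw [Polynomial.homogenize_add, Polynomial.homogenize_X (by norm_num),
      Polynomial.homogenize_C]
    simp
  have d1 : (Polynomial.X : Polynomial K).natDegree ≤ 2 := by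
    rw [Polynomial.natDegree_X]; norm_num
  have d2 : (Polynomial.X + 1 : Polynomial K).natDegree ≤ 1 := by
    have := Polynomial.natDegree_X_add_C (1 : K)
    rw [Polynomial.C_1] at this
    rw [this]
  have d3 : (Polynomial.X + Polynomial.C a : Polynomial K).natDegree ≤ 1 := by
    rw [Polynomial.natDegree_X_add_C]
  have d12 : (Polynomial.X * (Polynomial.X + 1) : Polynomial K).natDegree ≤ 3 :=
    Polynomial.natDegree_mul_le.trans (by omega)
  unfold hh dd
  rw [show (4 : ℕ) = 3 + 1 from rfl, Polynomial.homogenize_mul _ _ d12 d3,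
    show (3 : ℕ) = 2 + 1 from rfl, Polynomial.homogenize_mul _ _ d1 d2, h1, h2, h3]

lemma hh_pow_eq (a : K) (n : ℕ) : hh a ^ n = (dd a ^ n).homogenize (4 * n) := by
  induction n with
  | zero => simp
  | succ n ih =>
    rw [pow_succ, ih, hh_eq, ← Polynomial.homogenize_mul, ← pow_succ]
    · rfl
    · rw [Polynomial.natDegree_pow, dd_natDegree]; omega
    · rw [dd_natDegree]; omega

variable (p : ℕ) [Fact p.Prime] [CharP K p]

theorem exists_kernel {a : K} (ha0 : a ≠ 0) (ha1 : a ≠ 1) {m : ℕ} (hm1 : 1 ≤ m)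
    (hm : ∀ j, 1 ≤ j → j < m → a ^ p ^ j ≠ a) (ham : a ^ p ^ m = a) :
    ∃ (s : ℕ) (c : MvPolynomial (Fin 2) K), s + 2 * nn p m + 1 = p ^ m ∧ c.IsHomogeneous s ∧
      c ≠ 0 ∧ c * hh a ^ nn p m ∈ powIdeal (Fin 2) K (p ^ m) := by
  obtain ⟨c, U, V, hc0, hdeg, hU, hrel⟩ := exists_relation p ha0 ha1 hm1 hm ham
  set n := nn p m with hn
  set Q := p ^ m with hQ
  refine ⟨Q - (2 * n + 1), c.homogenize (Q - (2 * n + 1)), by omega,
    Polynomial.isHomogeneous_homogenize _, ?_, ?_⟩
  · intro h0
    exact hc0 (Polynomial.eq_zero_of_homogenize_eq_zero (by omega) h0)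
  · rw [hh_pow_eq, ← Polynomial.homogenize_mul, mul_comm c, hrel]
    · refine mem_powIdeal_of_support _ fun m' hm' => ?_
      rw [mem_support_iff, Polynomial.coeff_homogenize] at hm'
      split_ifs at hm' with hsum
      · by_contra hne
        push Not at hne
        have h0 := hne 0
        have h1 := hne 1
        apply hm'
        rw [Polynomial.coeff_sub, Polynomial.coeff_X_pow_mul', if_neg (by omega), zero_sub,
          neg_eq_zero]
        exact Polynomial.coeff_eq_zero_of_natDegree_lt (by omega)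
      · exact absurd rfl hm'
    · omega
    · rw [Polynomial.natDegree_pow, dd_natDegree]; omega

end

end Pool.Agent.Helper73_HK
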