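import Mathlib
import Pool.Agent.Helper73_HK.Hom

/-!
# The two bounds for `dim K[x,y]/(x^q,y^q,h^j)`
-/

namespace Pool.Agent.Helper73_HK

open MvPolynomial

section

variable {K : Type*} [Field K] (p : ℕ) [Fact p.Prime] [CharP K p]

lemma pow_mem_powIdeal (q k : ℕ) {x : MvPolynomial (Fin 2) K}
    (hx : x ∈ powIdeal (Fin 2) K q) : x ^ p ^ k ∈ powIdeal (Fin 2) K (q * p ^ k) := by
  have h : powIdeal (Fin 2) K q ≤
      (powIdeal (Fin 2) K (q * p ^ k)).comap (iterateFrobenius (MvPolynomial (Fin 2) K) p k) := by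
    conv_lhs => unfold powIdeal
    rw [Ideal.span_le]
    rintro _ ⟨i, rfl⟩
    refine Ideal.subset_span ⟨i, ?_⟩
    simp [iterateFrobenius_def, ← pow_mul]
  have := h hx
  rwa [Ideal.mem_comap, iterateFrobenius_def] at this

/-- The lower bound. -/
theorem lower_bound {a : K} (ha0 : a ≠ 0) (ha1 : a ≠ 1) {m : ℕ} (hm1 : 1 ≤ m)
    (hm : ∀ j, 1 ≤ j → j < m → a ^ p ^ j ≠ a) (ham : a ^ p ^ m = a) (k j t : ℕ)
    (hj : 2 * j ≤ p ^ (m + k))
    (ht : t + 2 * (nn p m * p ^ k - j) + 2 * (j - nn p m * p ^ k) ≤ p ^ k) :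
    2 * (p ^ (m + k)) ^ 2 + t * (t + 1) ≤
      2 * Gq (p ^ (m + k)) (hh a ^ j) + 2 * (p ^ (m + k) - 2 * j) ^ 2 := by
  obtain ⟨s, c, hs, hc, hc0, hmem⟩ := exists_kernel p ha0 ha1 hm1 hm ham
  have hhh := hh_homogeneous a
  set n := nn p m with hn
  have hpk : p ^ (m + k) = p ^ m * p ^ k := pow_add p m k
  have hP : 0 < p ^ k := pow_pos (Fact.out : p.Prime).pos k
  have hmem' : (c * hh a ^ n) ^ p ^ k ∈ powIdeal (Fin 2) K (p ^ (m + k)) := by
    rw [hpk]; exact pow_mem_powIdeal p _ k hmem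
  have hhh0 : hh a ≠ 0 := by
    intro h0
    have h1 : (dd a).homogenize 4 = 0 := by rw [← hh_eq, h0]
    have h2 := Polynomial.eq_zero_of_homogenize_eq_zero (by rw [dd_natDegree]; omega) h1
    exact (dd_monic a).ne_zero h2
  have key := rank_bound (p ^ (m + k)) (p ^ (m + k) - 2 * j) (4 * j)
    (s * p ^ k + 4 * (n * p ^ k - j)) t (Nat.sub_le _ _) (by omega) (hh a ^ j)
    (c ^ p ^ k * hh a ^ (n * p ^ k - j)) (by simpa [mul_comm] using hhh.pow j)
    (by
      refine (by simpa [mul_comm] using hc.pow (p ^ k)  : (c ^ p ^ k).IsHomogeneous (s * p ^ k)).mul ?_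
      simpa [mul_comm] using hhh.pow (n * p ^ k - j))
    (mul_ne_zero (pow_ne_zero _ hc0) (pow_ne_zero _ hhh0)) ?_ ?_
  · have := Gq_add_rk (p ^ (m + k)) (hh a ^ j)
    omega
  · have hsP : s * p ^ k + 2 * (n * p ^ k) + p ^ k = p ^ (m + k) := by
      rw [hpk, ← hs]; ring
    omega
  · rcases le_total j (n * p ^ k) with hle | hle
    · have : c ^ p ^ k * hh a ^ (n * p ^ k - j) * hh a ^ j = (c * hh a ^ n) ^ p ^ k := by
        rw [mul_assoc, ← pow_add, Nat.sub_add_cancel hle, mul_pow, ← pow_mul]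
      rw [this]
      exact hmem'
    · obtain ⟨l, rfl⟩ := Nat.exists_eq_add_of_le hle
      have : c ^ p ^ k * hh a ^ (n * p ^ k - (n * p ^ k + l)) * hh a ^ (n * p ^ k + l) =
          hh a ^ l * (c * hh a ^ n) ^ p ^ k := by
        rw [show n * p ^ k - (n * p ^ k + l) = 0 by omega, pow_zero, mul_one, mul_pow, ← pow_mul,
          pow_add]
        ring
      rw [this]
      exact Ideal.mul_mem_left _ _ hmem'

end

section

/-- The window matrix. -/
noncomputable def winM {R : Type*} [CommRing R] (j a : ℕ) (lam : R) :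
    Matrix (Fin a × Fin a) (Fin a × Fin a) R :=
  Matrix.of fun r c => coeff (ex (2 * j + r.1, 2 * j + r.2))
    (hh lam ^ j * (X 0 ^ (c.1 : ℕ) * X 1 ^ (c.2 : ℕ)))

lemma winM_map {R S : Type*} [CommRing R] [CommRing S] (f : R →+* S) (j a : ℕ) (lam : R) :
    (winM j a lam).map f = winM j a (f lam) := by
  ext r c
  simp only [winM, Matrix.map_apply, Matrix.of_apply, ← coeff_map, map_mul, map_pow, map_hh,
    map_X]

lemma lin_pow_eq {R : Type*} [CommRing R] (j : ℕ) :
    (X 0 + X 1 : MvPolynomial (Fin 2) R) ^ j = ((Polynomial.X + 1) ^ j).homogenize j := by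
  have h2 : (Polynomial.X + 1 : Polynomial R).homogenize 1 = X 0 + X 1 := by
    rw [Polynomial.homogenize_add, Polynomial.homogenize_X (by norm_num),
      Polynomial.homogenize_one]
    simp
  have hd : (Polynomial.X + 1 : Polynomial R).natDegree ≤ 1 := by
    refine (Polynomial.natDegree_add_le _ _).trans (max_le Polynomial.natDegree_X_le ?_)
    rw [Polynomial.natDegree_one]
    exact Nat.zero_le _
  induction j with
  | zero => simp
  | succ j ih =>
    rw [pow_succ, ih, ← h2, ← Polynomial.homogenize_mul, ← pow_succ]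
    · exact (Polynomial.natDegree_pow_le_of_le j hd).trans (by omega)
    · exact hd

lemma winM_zero_apply {R : Type*} [CommRing R] (j a : ℕ) (r c : Fin a × Fin a) :
    winM j a (0 : R) r c =
      if (c.1 : ℕ) ≤ r.1 ∧ (c.2 : ℕ) ≤ j + r.2 ∧ ((r.1 : ℕ) - c.1) + (j + r.2 - c.2) = j then
        ((Polynomial.X + 1 : Polynomial R) ^ j).coeff (r.1 - c.1) else 0 := by
  have h1 : (hh (0 : R)) ^ j * (X 0 ^ (c.1 : ℕ) * X 1 ^ (c.2 : ℕ)) =
      monomial (ex (2 * j + c.1, j + c.2)) (1 : R) * (X 0 + X 1) ^ j := by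
    have : monomial (ex (2 * j + c.1, j + c.2)) (1 : R) =
        X 0 ^ (2 * j + (c.1 : ℕ)) * X 1 ^ (j + (c.2 : ℕ)) := by
      rw [monomial_eq, C_1, one_mul, Finsupp.prod_fintype _ _ (by simp)]
      simp [Fin.prod_univ_two]
    rw [this]
    unfold hh
    simp only [map_zero, zero_mul, add_zero, mul_pow]
    ring
  unfold winM
  rw [Matrix.of_apply, h1, coeff_monomial_mul', lin_pow_eq, Polynomial.coeff_homogenize]
  by_cases hle : ex (2 * j + (c.1 : ℕ), j + (c.2 : ℕ)) ≤ ex (2 * j + (r.1 : ℕ), 2 * j + (r.2 : ℕ))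
  · have h0 := hle 0
    have h2 := hle 1
    simp only [ex_zero, ex_one] at h0 h2
    rw [if_pos hle, one_mul]
    have e0 : (ex (2 * j + (r.1 : ℕ), 2 * j + (r.2 : ℕ)) -
        ex (2 * j + (c.1 : ℕ), j + (c.2 : ℕ))) 0 = (r.1 : ℕ) - c.1 := by
      simp only [Finsupp.coe_tsub, Pi.sub_apply, ex_zero]; omega
    have e1 : (ex (2 * j + (r.1 : ℕ), 2 * j + (r.2 : ℕ)) -
        ex (2 * j + (c.1 : ℕ), j + (c.2 : ℕ))) 1 = j + (r.2 : ℕ) - c.2 := by
      simp only [Finsupp.coe_tsub, Pi.sub_apply, ex_one]; omega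
    rw [e0, e1]
    by_cases hs : (r.1 : ℕ) - c.1 + (j + (r.2 : ℕ) - c.2) = j
    · rw [if_pos hs, if_pos ⟨by omega, by omega, hs⟩]
    · rw [if_neg hs, if_neg (fun h => hs h.2.2)]
  · rw [if_neg hle, if_neg]
    rintro ⟨h1, h2, -⟩
    apply hle
    intro i
    fin_cases i
    · simp only [Fin.zero_eta, ex_zero]; omega
    · simp only [Fin.mk_one, ex_one]; omega

lemma winM_zero_det {F : Type*} [Field F] (j a : ℕ) : (winM j a (0 : F)).det ≠ 0 := by
  classical
  intro hdet
  rw [← Matrix.exists_mulVec_eq_zero_iff] at hdet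
  obtain ⟨x, hx0, hx⟩ := hdet
  apply hx0
  have key : ∀ k : ℕ, ∀ i l : Fin a, (i : ℕ) = k → x (i, l) = 0 := by
    intro k
    induction k using Nat.strong_induction_on with
    | _ k ih =>
      intro i l hik
      have h1 := congrFun hx (i, l)
      rw [Matrix.mulVec, dotProduct, Finset.sum_eq_single (i, l)] at h1
      · rw [winM_zero_apply, if_pos] at h1
        · simpa [Polynomial.coeff_zero_eq_eval_zero] using h1
        · refine ⟨le_rfl, by omega, by omega⟩
      · rintro ⟨i', l'⟩ - hne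
        rcases lt_trichotomy (i' : ℕ) i with h | h | h
        · rw [ih i' (by omega) i' l' rfl, mul_zero]
        · have hii : i' = i := Fin.ext h
          subst hii
          rw [winM_zero_apply, if_neg, zero_mul]
          rintro ⟨-, h2, h3⟩
          apply hne
          simp only [Prod.mk.injEq, true_and]
          simp only at h2 h3
          apply Fin.ext
          omega
        · rw [winM_zero_apply, if_neg, zero_mul]
          rintro ⟨h2, -⟩
          simp only at h2
          omega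
      · intro h; exact absurd (Finset.mem_univ _) h
  funext ⟨i, l⟩
  exact key i i l rfl

variable {K : Type*} [Field K]

/-- The generic upper bound. -/
theorem upper_of_det (lam : K) (q j : ℕ) (hj : 2 * j ≤ q)
    (hdet : (winM j (q - 2 * j) lam).det ≠ 0) :
    Gq q (hh lam ^ j) + (q - 2 * j) ^ 2 ≤ q ^ 2 := by
  classical
  let φ : MvPolynomial (Fin 2) K →ₗ[K] (Fin (q - 2 * j) × Fin (q - 2 * j) → K) :=
    LinearMap.pi fun r => lcoeff (R := K) (ex (2 * j + r.1, 2 * j + r.2))
  have hφ : ∀ P ∈ powIdeal (Fin 2) K q, φ P = 0 := by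
    intro P hP
    funext r
    refine coeff_eq_zero_of_mem_powIdeal q hP fun i => ?_
    fin_cases i
    · simp only [Fin.zero_eta, ex_zero]; omega
    · simp only [Fin.mk_one, ex_one]; omega
  have h1 := le_rank_of_det q (hh lam ^ j) φ hφ
    (fun c : Fin (q - 2 * j) × Fin (q - 2 * j) => X 0 ^ (c.1 : ℕ) * X 1 ^ (c.2 : ℕ)) hdet
  have h2 := Gq_add_rk q (hh lam ^ j)
  have h3 : Fintype.card (Fin (q - 2 * j) × Fin (q - 2 * j)) = (q - 2 * j) ^ 2 := by
    simp [sq]
  omega

/-- Generic parameters exist. -/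
theorem exists_poly (F : Type*) [Field F] (q j : ℕ) (hj : 2 * j ≤ q) :
    ∃ D : Polynomial F, D ≠ 0 ∧ ∀ (K : Type _) [Field K] [Algebra F K] (lam : K),
      Polynomial.aeval lam D ≠ 0 → Gq q (hh lam ^ j) + (q - 2 * j) ^ 2 ≤ q ^ 2 := by
  classical
  refine ⟨(winM j (q - 2 * j) (Polynomial.X : Polynomial F)).det, ?_, ?_⟩
  · intro h0
    have h1 := congrArg (Polynomial.evalRingHom (0 : F)) h0
    rw [RingHom.map_det, RingHom.mapMatrix_apply, winM_map, map_zero] at h1
    simp only [Polynomial.coe_evalRingHom, Polynomial.eval_X] at h1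
    exact winM_zero_det _ _ h1
  · intro K _ _ lam h
    refine upper_of_det lam q j hj ?_
    have h1 : Polynomial.aeval lam (winM j (q - 2 * j) (Polynomial.X : Polynomial F)).det =
        (winM j (q - 2 * j) lam).det := by
      have := RingHom.map_det (Polynomial.aeval lam : Polynomial F →ₐ[F] K).toRingHom
        (winM j (q - 2 * j) (Polynomial.X : Polynomial F))
      rw [RingHom.mapMatrix_apply, winM_map] at this
      simpa using this
    rwa [h1] at h

end

end Pool.Agent.Helper73_HK
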