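import Mathlib

/-!
# Hilbert–Kunz multiplicities: the definitions used in the statement
-/

open IsLocalRing Filter Topology

namespace Pool.Agent.Helper73_HK

universe u

/-- The bracket power `I^[q]`: the ideal generated by the `q`-th powers of the elements of `I`. -/
def bracketPower {R : Type u} [CommRing R] (I : Ideal R) (q : ℕ) : Ideal R :=
  Ideal.span {y | ∃ x ∈ I, y = x ^ q}

/-- `e` is the Hilbert–Kunz multiplicity of the local ring `R` (of characteristic `p` and Krull
dimension `d`): all the quotients `R / m^[p^k]` have finite length `ℓ k`, and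
`ℓ k / (p ^ k) ^ d → e`. -/
def IsHilbertKunzMultiplicity (p d : ℕ) (R : Type u) [CommRing R] [IsLocalRing R] (e : ℝ) :
    Prop :=
  ∃ ℓ : ℕ → ℕ,
    (∀ k, Module.length R (R ⧸ bracketPower (maximalIdeal R) (p ^ k)) = (ℓ k : ℕ∞)) ∧
      Tendsto (fun k => (ℓ k : ℝ) / ((p : ℝ) ^ k) ^ d) atTop (𝓝 e)

/-- `R` is the localization of a finitely generated `F`-algebra at a maximal ideal. -/
def IsLocalizationOfFiniteType (F R : Type u) [Field F] [CommRing R] [Algebra F R] : Prop :=
  ∃ (A : Type u) (_ : CommRing A) (_ : Algebra F A) (_ : Algebra A R) (P : Ideal A)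
    (_ : P.IsMaximal), Algebra.FiniteType F A ∧ IsScalarTower F A R ∧ IsLocalization.AtPrime R P

/-- `e` is the Hilbert–Kunz multiplicity of some singular (that is, not regular) Noetherian local
ring of Krull dimension `d` which is the localization of a finitely generated `F`-algebra at a
maximal ideal, where `F` is a field of characteristic `p`. -/
def IsSingularHKValue (p : ℕ) (F : Type u) [Field F] (d : ℕ) (e : ℝ) : Prop :=
  ∃ (R : Type u) (_ : CommRing R) (_ : IsLocalRing R) (_ : IsNoetherianRing R) (_ : Algebra F R),
    IsLocalizationOfFiniteType F R ∧ ringKrullDim R = d ∧ ¬ IsRegularLocalRing R ∧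
      IsHilbertKunzMultiplicity p d R e

end Pool.Agent.Helper73_HK
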