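import Mathlib

/-!
# Embedding dimension and Krull dimension of a hypersurface germ
-/

namespace Pool.Agent.Helper73_HK

open MvPolynomial IsLocalRing

section emb

variable {K : Type*} [Field K] {σ : Type*} [Fintype σ]

/-- A lower bound for the number of generators of the maximal ideal. -/
theorem card_le_spanFinrank [DecidableEq σ] {R : Type*} [CommRing R] [IsLocalRing R] [IsNoetherianRing R]
    (φ : R →+* TrivSqZeroExt K (σ → K))
    (hφ : ∀ x ∈ maximalIdeal R, (φ x).fst = 0) (x : σ → R) (hx : ∀ i, x i ∈ maximalIdeal R)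
    (hφx : ∀ i j, (φ (x i)).snd j = if j = i then 1 else 0) :
    Fintype.card σ ≤ (maximalIdeal R).spanFinrank := by
  have hfg : (maximalIdeal R).FG := (maximalIdeal R).fg_of_isNoetherianRing
  have hfin := Submodule.FG.finite_generators hfg
  let G : Finset R := hfin.toFinset
  have hG : Ideal.span (G : Set R) = maximalIdeal R := by
    simp only [G, Set.Finite.coe_toFinset]
    exact (maximalIdeal R).span_generators
  classical
  let V : Finset (σ → K) := G.image fun g => (φ g).snd
  have hspan : ∀ y ∈ maximalIdeal R, (φ y).snd ∈ Submodule.span K (V : Set (σ → K)) := by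
    intro y hy
    rw [← hG] at hy
    refine Submodule.span_induction (p := fun y _ => (φ y).snd ∈ Submodule.span K
      (V : Set (σ → K))) ?_ ?_ ?_ ?_ hy
    · intro g hg
      refine Submodule.subset_span ?_
      simp only [V, Finset.coe_image]
      exact ⟨g, hg, rfl⟩
    · simp
    · intro a b _ _ ha hb
      rw [map_add, TrivSqZeroExt.snd_add]
      exact Submodule.add_mem _ ha hb
    · intro r a ha0 ha
      have hfst : (φ a).fst = 0 := hφ a (by rw [← hG]; exact ha0)
      rw [smul_eq_mul, map_mul, TrivSqZeroExt.snd_mul, hfst]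
      simp only [MulOpposite.op_zero, zero_smul, add_zero]
      exact Submodule.smul_mem _ _ ha
  have htop : Submodule.span K (V : Set (σ → K)) = ⊤ := by
    rw [eq_top_iff]
    rintro v -
    have hv : v = ∑ i, v i • (φ (x i)).snd := by
      funext j
      simp only [Finset.sum_apply, Pi.smul_apply, hφx, smul_eq_mul, mul_ite, mul_one, mul_zero]
      simp
    rw [hv]
    exact Submodule.sum_mem _ fun i _ => Submodule.smul_mem _ _ (hspan _ (hx i))
  calc Fintype.card σ = Module.finrank K (σ → K) := by simp
    _ = Module.finrank K (Submodule.span K (V : Set (σ → K))) := by rw [htop, finrank_top]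
    _ ≤ V.card := finrank_span_finset_le_card V
    _ ≤ G.card := Finset.card_image_le
    _ = (maximalIdeal R).generators.ncard := by
      rw [Set.ncard_eq_toFinset_card _ hfin]
    _ = (maximalIdeal R).spanFinrank := Submodule.FG.generators_ncard hfg

/-- The evaluation at the origin. -/
noncomputable def ev (K σ : Type*) [Field K] : MvPolynomial σ K →ₐ[K] K := aeval fun _ => 0

omit [Fintype σ] in
lemma ev_X (i : σ) : ev K σ (X i) = 0 := aeval_X _ _

omit [Fintype σ] in
lemma ev_surjective : Function.Surjective (ev K σ) := fun c => ⟨C c, by simp [ev]⟩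

/-- The maximal ideal of the origin. -/
noncomputable def nn0 (K σ : Type*) [Field K] : Ideal (MvPolynomial σ K) := RingHom.ker (ev K σ)

omit [Fintype σ] in
instance : (nn0 K σ).IsMaximal := RingHom.ker_isMaximal_of_surjective (ev K σ) ev_surjective

omit [Fintype σ] in
lemma nn0_eq_span : nn0 K σ = Ideal.span (Set.range X) := by
  apply le_antisymm
  · intro P hP
    have h0 : constantCoeff P = 0 := by
      have h1 : ev K σ P = 0 := hP
      have h2 : ∀ P : MvPolynomial σ K, ev K σ P = constantCoeff P := by
        intro P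
        have : (ev K σ).toRingHom = constantCoeff := by
          ext i
          · simp [ev]
          · simp [ev]
        exact DFunLike.congr_fun this P
      rw [← h2, h1]
    have h3 : P ∈ Ideal.span (Set.range (X : σ → MvPolynomial σ K)) := by
      rw [P.as_sum]
      refine Ideal.sum_mem _ fun m hm => ?_
      have hm0 : m ≠ 0 := by
        rintro rfl
        rw [mem_support_iff] at hm
        exact hm h0
      obtain ⟨i, hi⟩ : ∃ i, m i ≠ 0 := by
        by_contra hne
        push Not at hne
        exact hm0 (Finsupp.ext hne)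
      have h1 : m = (m - Finsupp.single i 1) + Finsupp.single i 1 := by
        ext j
        by_cases hj : j = i
        · subst hj; simp; omega
        · simp [Ne.symm hj]
      have : monomial m (coeff m P) =
          monomial (m - Finsupp.single i 1) (coeff m P) * X i := by
        rw [X, monomial_mul, mul_one, ← h1]
      rw [this]
      exact Ideal.mul_mem_left _ _ (Ideal.subset_span ⟨i, rfl⟩)
    exact h3
  · rw [Ideal.span_le]
    rintro _ ⟨i, rfl⟩
    exact ev_X i

/-- Lower bound for the embedding dimension of the local ring at the origin of a subscheme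
defined by equations without linear part. -/
theorem card_le_of_surj [DecidableEq σ] {A : Type*} [CommRing A] (π : MvPolynomial σ K →+* A)
    (hπ : Function.Surjective π) (hker : RingHom.ker π ≤ nn0 K σ ^ 2) (P : Ideal A) [P.IsPrime]
    (hP : P.comap π = nn0 K σ) [IsNoetherianRing (Localization.AtPrime P)] :
    Fintype.card σ ≤ (maximalIdeal (Localization.AtPrime P)).spanFinrank := by
  classical
  -- the tangent vector map
  let ψ : MvPolynomial σ K →ₐ[K] TrivSqZeroExt K (σ → K) :=
    aeval fun i => TrivSqZeroExt.inr (Pi.single i 1)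
  have hψX : ∀ i, ψ (X i) = TrivSqZeroExt.inr (Pi.single i 1) := fun i => aeval_X _ _
  have hfst : ∀ Q, (ψ Q).fst = ev K σ Q := by
    intro Q
    have : (TrivSqZeroExt.fstHom K K (σ → K)).comp ψ = ev K σ := by
      apply MvPolynomial.algHom_ext
      intro i
      rw [AlgHom.comp_apply, hψX, ev_X]
      rfl
    rw [← this]; rfl
  have hψn : ∀ Q ∈ nn0 K σ, (ψ Q).fst = 0 := fun Q hQ => by rw [hfst]; exact hQ
  have hψ2 : nn0 K σ ^ 2 ≤ RingHom.ker ψ := by
    rw [sq, Ideal.mul_le]
    intro Q hQ Q' hQ'
    rw [RingHom.mem_ker, map_mul]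
    have h1 := hψn Q hQ
    have h2 := hψn Q' hQ'
    refine TrivSqZeroExt.ext ?_ ?_
    · rw [TrivSqZeroExt.fst_mul, h1, zero_mul]; rfl
    · rw [TrivSqZeroExt.snd_mul, h1, h2]
      simp
  let ψA : A →+* TrivSqZeroExt K (σ → K) :=
    RingHom.liftOfSurjective π hπ ⟨ψ.toRingHom, fun x hx => hψ2 (hker hx)⟩
  have hψA : ∀ Q, ψA (π Q) = ψ Q := fun Q =>
    RingHom.liftOfRightInverse_comp_apply π _ _ ⟨ψ.toRingHom, fun x hx => hψ2 (hker hx)⟩ Q
  have hPfst : ∀ x ∈ P, (ψA x).fst = 0 := by
    intro x hx
    obtain ⟨Q, rfl⟩ := hπ x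
    rw [hψA]
    apply hψn
    rw [← hP]
    exact hx
  have hPunit : ∀ x : P.primeCompl, IsUnit (ψA x) := by
    rintro ⟨x, hx⟩
    obtain ⟨Q, rfl⟩ := hπ x
    rw [TrivSqZeroExt.isUnit_iff_isUnit_fst]
    change IsUnit (ψA (π Q)).fst
    rw [hψA, hfst, isUnit_iff_ne_zero]
    intro h0
    apply hx
    have : Q ∈ P.comap π := by rw [hP]; exact h0
    exact this
  let φ : Localization.AtPrime P →+* TrivSqZeroExt K (σ → K) :=
    IsLocalization.lift (M := P.primeCompl) hPunit
  have hφ : ∀ x, φ (algebraMap A _ x) = ψA x := fun x => IsLocalization.lift_eq _ _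
  refine card_le_spanFinrank φ ?_ (fun i => algebraMap A _ (π (X i))) ?_ ?_
  · intro x hx
    rw [← Localization.AtPrime.map_eq_maximalIdeal] at hx
    have hle : P.map (algebraMap A (Localization.AtPrime P)) ≤
        RingHom.ker ((TrivSqZeroExt.fstHom K K (σ → K)).toRingHom.comp φ) := by
      rw [Ideal.map_le_iff_le_comap]
      intro y hy
      rw [Ideal.mem_comap, RingHom.mem_ker]
      change (φ (algebraMap A _ y)).fst = 0
      rw [hφ]
      exact hPfst y hy
    exact hle hx
  · intro i
    rw [← Localization.AtPrime.map_eq_maximalIdeal]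
    refine Ideal.mem_map_of_mem _ ?_
    have : X i ∈ P.comap π := by rw [hP]; exact ev_X i
    exact this
  · intro i j
    rw [hφ, hψA, hψX, TrivSqZeroExt.snd_inr, Pi.single_apply]

/-- The local ring of affine space at the origin has the expected dimension. -/
theorem dim_affine : ringKrullDim (Localization.AtPrime (nn0 K σ)) = Fintype.card σ := by
  classical
  have hreg : IsRegularLocalRing (Localization.AtPrime (nn0 K σ)) := inferInstance
  rw [← hreg.spanFinrank_maximalIdeal]
  congr 1
  apply le_antisymm
  · have h2 : ∀ {S : Type _} [CommRing S] (g : MvPolynomial σ K →+* S),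
        (nn0 K σ).map g = Ideal.span (g '' Set.range X) := by
      intro S _ g
      rw [nn0_eq_span, Ideal.map_span]
    rw [← Localization.AtPrime.map_eq_maximalIdeal, h2]
    refine (Submodule.spanFinrank_span_le_ncard_of_finite ((Set.finite_range _).image _)).trans ?_
    refine (Set.ncard_image_le (Set.finite_range _)).trans ?_
    rw [← Nat.card_coe_set_eq, ← Nat.card_eq_fintype_card]
    exact Finite.card_range_le _
  · refine card_le_of_surj (RingHom.id _) (fun x => ⟨x, rfl⟩) ?_ _ (Ideal.comap_id _)
    intro x hx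
    have hx0 : x = 0 := hx
    rw [hx0]
    exact zero_mem _

/-- Dimension of a hypersurface germ. -/
theorem dim_hypersurface (f : MvPolynomial σ K) (hf0 : f ≠ 0) (hf : f ∈ nn0 K σ)
    (P : Ideal (MvPolynomial σ K ⧸ Ideal.span {f})) [P.IsPrime]
    (hP : P.comap (Ideal.Quotient.mk (Ideal.span {f})) = nn0 K σ) :
    ringKrullDim (Localization.AtPrime P) + 1 = Fintype.card σ := by
  classical
  let T := MvPolynomial σ K
  let Tn := Localization.AtPrime (nn0 K σ)
  let I : Ideal T := Ideal.span {f}
  have hI : I.map (algebraMap T Tn) = Ideal.span {algebraMap T Tn f} := by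
    rw [Ideal.map_span, Set.image_singleton]
  have hM : Algebra.algebraMapSubmonoid (T ⧸ I) (nn0 K σ).primeCompl = P.primeCompl := by
    ext x
    obtain ⟨t, rfl⟩ := Ideal.Quotient.mk_surjective x
    constructor
    · rintro ⟨s, hs, hst⟩ hP'
      apply hs
      have h1 : Ideal.Quotient.mk I s ∈ P := by
        change algebraMap T (T ⧸ I) s ∈ P
        rw [hst]; exact hP'
      have h2 : s ∈ P.comap (Ideal.Quotient.mk I) := h1
      rw [hP] at h2
      exact h2
    · intro hx
      refine ⟨t, ?_, rfl⟩
      intro ht
      apply hx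
      have : t ∈ P.comap (Ideal.Quotient.mk I) := by rw [hP]; exact ht
      exact this
  have hloc : IsLocalization (Algebra.algebraMapSubmonoid (T ⧸ I) (nn0 K σ).primeCompl)
      (Tn ⧸ I.map (algebraMap T Tn)) := inferInstance
  rw [hM] at hloc
  let e := IsLocalization.algEquiv P.primeCompl (Localization.AtPrime P)
    (Tn ⧸ I.map (algebraMap T Tn))
  rw [ringKrullDim_eq_of_ringEquiv e.toRingEquiv, hI]
  have hdom : IsDomain Tn := IsLocalization.isDomain_localization
    (nn0 K σ).primeCompl_le_nonZeroDivisors
  have hinj : Function.Injective (algebraMap T Tn) :=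
    IsLocalization.injective Tn (nn0 K σ).primeCompl_le_nonZeroDivisors
  rw [ringKrullDim_quotient_span_singleton_succ_eq_ringKrullDim_of_mem_nonZeroDivisors, dim_affine]
  · rw [mem_nonZeroDivisors_iff_ne_zero]
    intro h0
    exact hf0 (hinj (by rw [h0, map_zero]))
  · rw [← Localization.AtPrime.map_eq_maximalIdeal]
    exact Ideal.mem_map_of_mem _ hf

end emb

end Pool.Agent.Helper73_HK
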