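import Mathlib
import Pool.Agent.Helper73_HK.Bounds

/-!
# Limits
-/

namespace Pool.Agent.Helper73_HK

open Filter Topology

/-- The abstract convergence statement. -/
theorem exists_limit (p : ℕ) (hp : 2 ≤ p) (g : ℕ → ℕ → ℕ)
    (hmono : ∀ e i j, i ≤ j → g e i ≤ g e j)
    (hlip : ∀ e j, (j + 1) * g e (j + 1) ≤ (j + 1) * g e j + (p ^ e) ^ 2)
    (hfrob : ∀ e j, g (e + 1) (p * j) ≤ p ^ 2 * g e j)
    (u : ℕ → ℝ)
    (hu1 : ∀ e, ((p + 1 : ℕ) : ℝ) * g e (p ^ e / (p + 1)) / ((p : ℝ) ^ e) ^ 2 ≤ u e)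
    (hu2 : ∀ e, u e ≤ ((p + 1 : ℕ) : ℝ) * g e (p ^ e / (p + 1) + 1) / ((p : ℝ) ^ e) ^ 2) :
    ∃ L : ℝ, Tendsto u atTop (𝓝 L) ∧
      ∀ e, L ≤ ((p + 1 : ℕ) : ℝ) * g e (p ^ e / (p + 1) + 1) / ((p : ℝ) ^ e) ^ 2 := by
  set N := p + 1 with hN
  have hN0 : 0 < N := by omega
  have hp0 : (0 : ℝ) < p := by positivity
  let w : ℕ → ℝ := fun e => (N : ℝ) * g e (p ^ e / N + 1) / ((p : ℝ) ^ e) ^ 2
  have hw : Antitone w := by
    refine antitone_nat_of_succ_le fun e => ?_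
    have h1 : p ^ (e + 1) / N + 1 ≤ p * (p ^ e / N + 1) := by
      rw [Nat.succ_le_iff, Nat.div_lt_iff_lt_mul hN0]
      have := Nat.lt_mul_div_succ (p ^ e) hN0
      calc p ^ (e + 1) = p * p ^ e := by ring
        _ < p * (N * (p ^ e / N + 1)) := Nat.mul_lt_mul_of_pos_left this (by omega)
        _ = _ := by ring
    have h2 : g (e + 1) (p ^ (e + 1) / N + 1) ≤ p ^ 2 * g e (p ^ e / N + 1) :=
      (hmono _ _ _ h1).trans (hfrob _ _)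
    have h3 : (g (e + 1) (p ^ (e + 1) / N + 1) : ℝ) ≤ (p : ℝ) ^ 2 * g e (p ^ e / N + 1) := by
      exact_mod_cast h2
    change (N : ℝ) * g (e + 1) (p ^ (e + 1) / N + 1) / ((p : ℝ) ^ (e + 1)) ^ 2 ≤
      (N : ℝ) * g e (p ^ e / N + 1) / ((p : ℝ) ^ e) ^ 2
    rw [div_le_div_iff₀ (by positivity) (by positivity)]
    have h4 : ((p : ℝ) ^ (e + 1)) ^ 2 = (p : ℝ) ^ 2 * ((p : ℝ) ^ e) ^ 2 := by ring
    rw [h4]
    have h5 : (N : ℝ) * g (e + 1) (p ^ (e + 1) / N + 1) * ((p : ℝ) ^ e) ^ 2 ≤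
        (N : ℝ) * ((p : ℝ) ^ 2 * g e (p ^ e / N + 1)) * ((p : ℝ) ^ e) ^ 2 := by gcongr
    linarith
  have hw0 : ∀ e, 0 ≤ w e := fun e => by positivity
  have hbdd : BddBelow (Set.range w) := ⟨0, by rintro _ ⟨e, rfl⟩; exact hw0 e⟩
  obtain ⟨L, hL⟩ : ∃ L, Tendsto w atTop (𝓝 L) := ⟨_, tendsto_atTop_ciInf hw hbdd⟩
  have hLw : ∀ e, L ≤ w e := fun e => hw.le_of_tendsto hL e
  refine ⟨L, ?_, hLw⟩
  -- `w - u → 0`
  have hdiff : ∀ e, w e - (N : ℝ) ^ 2 / (p : ℝ) ^ e ≤ u e := by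
    intro e
    refine le_trans ?_ (hu1 e)
    change (N : ℝ) * g e (p ^ e / N + 1) / ((p : ℝ) ^ e) ^ 2 - (N : ℝ) ^ 2 / (p : ℝ) ^ e ≤ _
    have h1 := hlip e (p ^ e / N)
    have h2 : p ^ e ≤ N * (p ^ e / N + 1) := (Nat.lt_mul_div_succ (p ^ e) hN0).le
    have h3 : ((p ^ e / N + 1 : ℕ) : ℝ) * g e (p ^ e / N + 1) ≤
        ((p ^ e / N + 1 : ℕ) : ℝ) * g e (p ^ e / N) + ((p : ℝ) ^ e) ^ 2 := by exact_mod_cast h1
    have h4 : (p : ℝ) ^ e ≤ N * ((p ^ e / N + 1 : ℕ) : ℝ) := by exact_mod_cast h2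
    obtain ⟨A, hA⟩ : ∃ A : ℝ, A = ((p ^ e / N + 1 : ℕ) : ℝ) := ⟨_, rfl⟩
    obtain ⟨q, hq⟩ : ∃ q : ℝ, q = (p : ℝ) ^ e := ⟨_, rfl⟩
    have hq0 : 0 < q := hq ▸ by positivity
    rw [← hA] at h3 h4
    rw [← hq] at h3 h4 ⊢
    have hA0 : 0 < A := hA ▸ by positivity
    obtain ⟨x, hx⟩ : ∃ x : ℝ, x = g e (p ^ e / N + 1) := ⟨_, rfl⟩
    obtain ⟨y, hy⟩ : ∃ y : ℝ, y = g e (p ^ e / N) := ⟨_, rfl⟩
    rw [← hx, ← hy] at h3
    rw [← hx, ← hy]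
    have hNr : (0 : ℝ) < N := by exact_mod_cast hN0
    -- x ≤ y + N q
    have h5 : x ≤ y + N * q := by
      have h6 : A * (x - y) ≤ q * (N * A) := by nlinarith
      have h7 : A * (x - y) ≤ A * (N * q) := by linarith
      have h8 := le_of_mul_le_mul_left h7 hA0
      linarith
    rw [div_sub_div _ _ (by positivity) (by positivity), div_le_div_iff₀ (by positivity)
      (by positivity)]
    have h10 := mul_le_mul_of_nonneg_left h5 (by positivity : 0 ≤ (N : ℝ) * q)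
    have h9 : (N : ℝ) * x * q - q ^ 2 * (N : ℝ) ^ 2 ≤ N * y * q := by linarith
    have h11 := mul_le_mul_of_nonneg_right h9 (by positivity : 0 ≤ q ^ 2)
    linarith
  refine tendsto_of_tendsto_of_tendsto_of_le_of_le (g := fun e => w e - (N : ℝ) ^ 2 / (p : ℝ) ^ e)
    ?_ hL hdiff hu2
  have h0 : Tendsto (fun e => (N : ℝ) ^ 2 / (p : ℝ) ^ e) atTop (𝓝 0) := by
    refine Tendsto.div_atTop tendsto_const_nhds ?_
    exact tendsto_pow_atTop_atTop_of_one_lt (by exact_mod_cast (by omega : 1 < p))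
  simpa using hL.sub h0

end Pool.Agent.Helper73_HK
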