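import Mathlib
import Pool.Agent.Helper73_HK.Limit

/-!
# Numerical consequences
-/

namespace Pool.Agent.Helper73_HK

open Filter Topology MvPolynomial

/-- Upper estimate for a generic parameter. -/
theorem upper_value (p e G : ℕ) (hp : 2 ≤ p) (hj : 2 * (p ^ e / (p + 1) + 1) ≤ p ^ e)
    (hG : G + (p ^ e - 2 * (p ^ e / (p + 1) + 1)) ^ 2 ≤ (p ^ e) ^ 2) :
    ((p + 1 : ℕ) : ℝ) * G / ((p : ℝ) ^ e) ^ 2 ≤
      4 - 4 / ((p + 1 : ℕ) : ℝ) + 4 * ((p + 1 : ℕ) : ℝ) / (p : ℝ) ^ e := by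
  have hN0 : 0 < p + 1 := by omega
  have h2 : p ^ e ≤ (p + 1) * (p ^ e / (p + 1) + 1) := (Nat.lt_mul_div_succ (p ^ e) hN0).le
  have h3 : (p + 1) * (p ^ e / (p + 1)) ≤ p ^ e := Nat.mul_div_le _ _
  obtain ⟨j, hjd⟩ : ∃ j, j = p ^ e / (p + 1) + 1 := ⟨_, rfl⟩
  obtain ⟨q, hq⟩ : ∃ q, q = p ^ e := ⟨_, rfl⟩
  have h4 : (p + 1) * j ≤ q + (p + 1) := by
    rw [hjd, hq, mul_add, mul_one]; omega
  rw [← hjd, ← hq] at hj hG h2
  have hq0 : 0 < q := by rw [hq]; positivity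
  have hqr : ((p : ℝ) ^ e) = (q : ℝ) := by rw [hq]; push_cast; ring
  rw [hqr]
  obtain ⟨r, hr⟩ := Nat.exists_eq_add_of_le hj
  rw [hr, Nat.add_sub_cancel_left] at hG
  have hGr : (G : ℝ) + (r : ℝ) ^ 2 ≤ (2 * j + r) ^ 2 := by exact_mod_cast hG
  have hrr : (q : ℝ) = 2 * j + r := by rw [hr]; push_cast; ring
  obtain ⟨N, hN⟩ : ∃ N : ℝ, N = ((p + 1 : ℕ) : ℝ) := ⟨_, rfl⟩
  have h2r : (q : ℝ) ≤ N * j := by rw [hN]; exact_mod_cast h2
  have h4r : N * j ≤ q + N := by rw [hN]; exact_mod_cast h4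
  rw [← hN]
  have hNpos : 0 < N := by rw [hN]; exact_mod_cast hN0
  have hqpos : (0 : ℝ) < q := by exact_mod_cast hq0
  -- `G ≤ 4 j q - 4 j ^ 2`
  have hG2 : (G : ℝ) ≤ 4 * j * q - 4 * j ^ 2 := by
    have : (r : ℝ) = q - 2 * j := by linarith
    rw [this] at hGr
    nlinarith
  have e1 : 4 - 4 / N + 4 * N / q = (4 * N * q ^ 2 - 4 * q ^ 2 + 4 * N ^ 2 * q) / (N * q ^ 2) := by
    field_simp
  rw [e1, div_le_div_iff₀ (by positivity) (by positivity)]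
  have h5 : N * (N * G) ≤ 4 * N * q ^ 2 - 4 * q ^ 2 + 4 * N ^ 2 * q := by
    have h6 : N * (N * G) ≤ N * N * (4 * j * q - 4 * j ^ 2) := by
      have := mul_le_mul_of_nonneg_left hG2 (by positivity : 0 ≤ N * N)
      linarith
    have h7 : N * N * (4 * j * q - 4 * j ^ 2) = 4 * (N * q) * (N * j) - 4 * (N * j) ^ 2 := by ring
    have h8 : 4 * (N * q) * (N * j) ≤ 4 * (N * q) * (q + N) :=
      mul_le_mul_of_nonneg_left h4r (by positivity)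
    have h9 : (q : ℝ) ^ 2 ≤ (N * j) ^ 2 := pow_le_pow_left₀ hqpos.le h2r 2
    nlinarith
  have h10 := mul_le_mul_of_nonneg_right h5 (by positivity : (0 : ℝ) ≤ (q : ℝ) ^ 2)
  nlinarith

/-- Lower estimate. -/
theorem lower_value (p m k G : ℕ) (hp : 2 ≤ p) (hk : 3 ≤ k)
    (hG : ∀ t : ℕ, t + 2 * (nn p m * p ^ k - p ^ (m + k) / (p + 1)) +
      2 * (p ^ (m + k) / (p + 1) - nn p m * p ^ k) ≤ p ^ k →
      2 * (p ^ (m + k)) ^ 2 + t * (t + 1) ≤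
      2 * G + 2 * (p ^ (m + k) - 2 * (p ^ (m + k) / (p + 1))) ^ 2) :
    4 - 4 / ((p + 1 : ℕ) : ℝ) + ((p : ℝ) - 1) ^ 2 / (8 * ((p + 1 : ℕ) : ℝ) * ((p : ℝ) ^ m) ^ 2)
      - 4 * p / (p : ℝ) ^ (m + k) ≤ ((p + 1 : ℕ) : ℝ) * G / ((p : ℝ) ^ (m + k)) ^ 2 := by
  obtain ⟨hnn, -⟩ := nn_prop p hp m
  obtain ⟨n, hn⟩ : ∃ n, n = nn p m := ⟨_, rfl⟩
  obtain ⟨P, hP⟩ : ∃ P, P = p ^ k := ⟨_, rfl⟩
  obtain ⟨Q, hQ⟩ : ∃ Q, Q = p ^ m := ⟨_, rfl⟩
  obtain ⟨q, hq⟩ : ∃ q, q = p ^ (m + k) := ⟨_, rfl⟩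
  obtain ⟨a, ha⟩ : ∃ a, a = p ^ (m + k) / (p + 1) := ⟨_, rfl⟩
  have hQP : q = Q * P := by rw [hq, hQ, hP, pow_add]
  have hdm : (p + 1) * a + q % (p + 1) = q := by
    rw [ha, hq]; exact Nat.div_add_mod _ _
  have hb : q % (p + 1) < p + 1 := Nat.mod_lt _ (by omega)
  obtain ⟨b, hbd⟩ : ∃ b, b = q % (p + 1) := ⟨_, rfl⟩
  rw [← hbd] at hdm hb
  have hqr : ((p : ℝ) ^ (m + k)) = (q : ℝ) := by rw [hq]; push_cast; ring
  have hQr : ((p : ℝ) ^ m) = (Q : ℝ) := by rw [hQ]; push_cast; ring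
  rw [← hn, ← hP, ← ha, ← hq] at hG
  rw [← hn, ← hQ] at hnn
  rw [hqr, hQr]
  have hQ0 : 0 < Q := by rw [hQ]; positivity
  have hP0 : 0 < P := by rw [hP]; positivity
  have hP3 : p * p ^ 2 ≤ P := by
    rw [hP, ← pow_succ']
    exact Nat.pow_le_pow_right (by omega) hk
  have hPp : 4 * p ≤ (p - 1) * P := by
    have h1 : 4 ≤ p ^ 2 := by nlinarith
    have h2 : p * 4 ≤ P := (Nat.mul_le_mul_left p h1).trans hP3
    calc 4 * p = 1 * (p * 4) := by ring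
      _ ≤ (p - 1) * P := Nat.mul_le_mul (by omega) h2
  -- distances
  obtain ⟨D1, hD1⟩ : ∃ D, D = n * P - a := ⟨_, rfl⟩
  obtain ⟨D2, hD2⟩ : ∃ D, D = a - n * P := ⟨_, rfl⟩
  rw [← hD1, ← hD2] at hG
  have hnP : (p + 1) * (n * P) + P = q ∨ (p + 1) * (n * P) = q + P := by
    rcases hnn with h | h
    · left; rw [hQP, ← h]; ring
    · right; rw [hQP, ← mul_assoc, h]; ring
  have hND : (p + 1) * (2 * D1 + 2 * D2) ≤ 2 * P + 2 * p := by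
    rcases le_total a (n * P) with h | h
    · have e2 : D2 = 0 := by omega
      have e1 : D1 + a = n * P := by omega
      have e3 : (p + 1) * D1 + (p + 1) * a = (p + 1) * (n * P) := by rw [← mul_add, e1]
      rw [e2, mul_zero, add_zero, show (p + 1) * (2 * D1) = 2 * ((p + 1) * D1) by ring]
      omega
    · have e2 : D1 = 0 := by omega
      have e1 : D2 + n * P = a := by omega
      have e3 : (p + 1) * D2 + (p + 1) * (n * P) = (p + 1) * a := by rw [← mul_add, e1]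
      rw [e2, mul_zero, zero_add, show (p + 1) * (2 * D2) = 2 * ((p + 1) * D2) by ring]
      omega
  have hpm : (p - 1) * P + 2 * P = (p + 1) * P := by
    rw [← add_mul]; congr 1; omega
  have hDP : 2 * D1 + 2 * D2 ≤ P := by
    refine Nat.le_of_mul_le_mul_left ?_ (show 0 < p + 1 by omega)
    omega
  obtain ⟨t, ht⟩ := Nat.exists_eq_add_of_le hDP
  have hNt : (p - 1) * P ≤ 2 * ((p + 1) * t) := by
    have e1 : (p + 1) * P = (p + 1) * (2 * D1 + 2 * D2) + (p + 1) * t := by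
      rw [← mul_add, ← ht]
    omega
  have hGt := hG t (by omega)
  have h2a : 2 * a ≤ q := by
    have : 2 * a ≤ (p + 1) * a := Nat.mul_le_mul_right _ (by omega)
    omega
  obtain ⟨r, hr⟩ := Nat.exists_eq_add_of_le h2a
  rw [show q - 2 * a = r by omega] at hGt
  -- real numbers
  have hGr : 2 * (q : ℝ) ^ 2 + t * (t + 1) ≤ 2 * G + 2 * (r : ℝ) ^ 2 := by exact_mod_cast hGt
  have hrr : (r : ℝ) = q - 2 * a := by rw [hr]; push_cast; ring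
  have hNtr : ((p : ℝ) - 1) * P ≤ 2 * (((p : ℝ) + 1) * t) := by
    have h1 : ((p - 1 : ℕ) : ℝ) = (p : ℝ) - 1 := by
      rw [Nat.cast_sub (by omega)]; simp
    rw [← h1]
    exact_mod_cast hNt
  have hNa1 : (q : ℝ) - p ≤ ((p : ℝ) + 1) * a := by
    have : q ≤ (p + 1) * a + p := by omega
    have : (q : ℝ) ≤ ((p : ℝ) + 1) * a + p := by exact_mod_cast this
    linarith
  have hNa2 : ((p : ℝ) + 1) * a ≤ q := by
    have : (p + 1) * a ≤ q := by omega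
    exact_mod_cast this
  have hqPr : (q : ℝ) = Q * P := by exact_mod_cast hQP
  have hpr : (2 : ℝ) ≤ p := by exact_mod_cast hp
  have hQr0 : (0 : ℝ) < Q := by exact_mod_cast hQ0
  have hPr0 : (0 : ℝ) < P := by exact_mod_cast hP0
  have hqr0 : (0 : ℝ) < q := by rw [hqPr]; positivity
  have htr0 : (0 : ℝ) ≤ t := Nat.cast_nonneg _
  rw [show ((p + 1 : ℕ) : ℝ) = (p : ℝ) + 1 by push_cast; ring]
  obtain ⟨N, hN⟩ : ∃ N : ℝ, N = (p : ℝ) + 1 := ⟨_, rfl⟩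
  rw [← hN] at hNtr hNa1 hNa2 ⊢
  have hN0 : 0 < N := by linarith
  rw [hrr] at hGr
  -- main inequality
  have hG1 : 4 * (a : ℝ) * q - 4 * a ^ 2 + t ^ 2 / 2 ≤ G := by nlinarith
  have ht2 : (((p : ℝ) - 1) * P) ^ 2 ≤ 4 * N ^ 2 * t ^ 2 := by
    have := pow_le_pow_left₀ (by nlinarith : 0 ≤ ((p : ℝ) - 1) * P) hNtr 2
    nlinarith
  have e1 : 4 - 4 / N + ((p : ℝ) - 1) ^ 2 / (8 * N * (Q : ℝ) ^ 2) - 4 * p / q =
      (4 * N * q ^ 2 - 4 * q ^ 2 + (((p : ℝ) - 1) * P) ^ 2 / 8 - 4 * p * q * N) /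
        (N * q ^ 2) := by
    rw [hqPr]
    field_simp
  rw [e1, div_le_div_iff₀ (by positivity) (by positivity)]
  have h5 : 4 * N * q ^ 2 - 4 * q ^ 2 + (((p : ℝ) - 1) * P) ^ 2 / 8 - 4 * p * q * N ≤
      N * (N * G) := by
    have h6 := mul_le_mul_of_nonneg_left hG1 (by positivity : 0 ≤ N * N)
    have h7 : N * N * (4 * (a : ℝ) * q - 4 * a ^ 2 + t ^ 2 / 2) =
        4 * (N * q) * (N * a) - 4 * (N * a) ^ 2 + N ^ 2 * t ^ 2 / 2 := by ring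
    have h8 : 4 * (N * q) * (q - p) ≤ 4 * (N * q) * (N * a) :=
      mul_le_mul_of_nonneg_left hNa1 (by positivity)
    have h9 : (N * (a : ℝ)) ^ 2 ≤ (q : ℝ) ^ 2 :=
      pow_le_pow_left₀ (by positivity) hNa2 2
    have h10 : 4 * (N * q) * (q - p) = 4 * N * q ^ 2 - 4 * p * q * N := by ring
    linarith
  have h10 := mul_le_mul_of_nonneg_right h5 (by positivity : (0 : ℝ) ≤ (q : ℝ) ^ 2)
  linarith

end Pool.Agent.Helper73_HK
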