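import Mathlib
import Pool.Agent.Helper73_HK.Numeric

/-!
# From the plane to the hypersurface `z^(p+1) = x y (x + y) (x + a y)` in `k + 3` variables
-/

namespace Pool.Agent.Helper73_HK

open MvPolynomial

section adjoin

variable (K : Type*) [Field K] {C : Type*} [CommRing C] [Algebra K C] [Module.Finite K C]

lemma adjoin_facts (c : C) (N : ℕ) (hN : N ≠ 0) :
    Module.Finite K (AdjoinRoot (Polynomial.X ^ N - Polynomial.C c)) ∧
    Module.finrank K (AdjoinRoot (Polynomial.X ^ N - Polynomial.C c)) =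
      N * Module.finrank K C := by
  rcases subsingleton_or_nontrivial C with hC | hC
  · have : Subsingleton (AdjoinRoot (Polynomial.X ^ N - Polynomial.C c)) :=
      (AdjoinRoot.of (Polynomial.X ^ N - Polynomial.C c)).codomain_trivial
    refine ⟨inferInstance, ?_⟩
    rw [Module.finrank_zero_of_subsingleton, Module.finrank_zero_of_subsingleton, mul_zero]
  · have hm : (Polynomial.X ^ N - Polynomial.C c).Monic := Polynomial.monic_X_pow_sub_C c hN
    let e := (AdjoinRoot.powerBasisAux' hm).equivFun.restrictScalars K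
    have hd : (Polynomial.X ^ N - Polynomial.C c).natDegree = N :=
      Polynomial.natDegree_X_pow_sub_C
    constructor
    · exact Module.Finite.equiv e.symm
    · rw [e.finrank_eq, Module.finrank_pi_fintype]
      simp [hd]

end adjoin

section tower

variable {K : Type*} [Field K] (k : ℕ)

/-- The index set of the variables: `x, y, z` and `k` more. -/
abbrev Idx (k : ℕ) : Type := Fin 3 ⊕ Fin k

/-- the inclusion of `x, y`. -/
def iota (k : ℕ) : Fin 2 → Idx k := ![Sum.inl 0, Sum.inl 1]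

/-- `z^N - x y (x + y) (x + a y)`. -/
noncomputable def ff (N : ℕ) (a : K) : MvPolynomial (Idx k) K :=
  X (Sum.inl 2) ^ N - rename (iota k) (hh a)

/-- The tower algebra. -/
abbrev EE (k q : ℕ) {J : Ideal (MvPolynomial (Fin 2) K)}
    (g : Polynomial (MvPolynomial (Fin 2) K ⧸ J)) : Type _ :=
  MvPolynomial (Fin k) (AdjoinRoot g) ⧸ powIdeal (Fin k) (AdjoinRoot g) q

lemma EE_facts (N q : ℕ) (hN : N ≠ 0) (H : MvPolynomial (Fin 2) K)
    (J : Ideal (MvPolynomial (Fin 2) K)) (hJ : J = powIdeal (Fin 2) K q ⊔ Ideal.span {H})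
    (c : MvPolynomial (Fin 2) K ⧸ J) (g : Polynomial (MvPolynomial (Fin 2) K ⧸ J))
    (hg : g = Polynomial.X ^ N - Polynomial.C c) :
    Module.Finite K (EE k q g) ∧ Module.finrank K (EE k q g) = q ^ k * (N * Gq q H) := by
  have hfin : Module.Finite K (MvPolynomial (Fin 2) K ⧸ J) :=
    finite_of_powIdeal_le q J (hJ ▸ le_sup_left)
  obtain ⟨h1, h2⟩ := adjoin_facts K c N hN
  rw [← hg] at h1 h2
  refine ⟨finite_quot_powIdeal q K, ?_⟩
  rw [finrank_quot_powIdeal, h2, Fintype.card_fin]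
  subst hJ
  rfl

/-- The Hilbert–Kunz length. -/
noncomputable def LL (N : ℕ) (a : K) (q : ℕ) : ℕ :=
  Module.finrank K (MvPolynomial (Idx k) K ⧸
    (powIdeal (Idx k) K q ⊔ Ideal.span {ff k N a}))

lemma finite_LL (N : ℕ) (a : K) (q : ℕ) : Module.Finite K (MvPolynomial (Idx k) K ⧸
    (powIdeal (Idx k) K q ⊔ Ideal.span {ff k N a})) := by
  have hle : powIdeal (Idx k) K q ≤ powIdeal (Idx k) K q ⊔ Ideal.span {ff k N a} := le_sup_left
  have hs : Function.Surjective (Ideal.Quotient.factorₐ K hle) := by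
    intro x
    obtain ⟨x, rfl⟩ := Ideal.Quotient.mk_surjective x
    exact ⟨Ideal.Quotient.mk _ x, rfl⟩
  have := finite_quot_powIdeal (ι := Idx k) (C := K) q K
  exact Module.Finite.of_surjective (Ideal.Quotient.factorₐ K hle).toLinearMap hs

omit [Field K] in
lemma powIdeal_le_iff {ι C : Type*} [CommRing C] (q : ℕ) (J : Ideal (MvPolynomial ι C)) :
    powIdeal ι C q ≤ J ↔ ∀ i, (X i : MvPolynomial ι C) ^ q ∈ J := by
  unfold powIdeal
  rw [Ideal.span_le]
  exact ⟨fun h i => h ⟨i, rfl⟩, by rintro h _ ⟨i, rfl⟩; exact h i⟩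

/-- maps out of the quotient ring. -/
lemma exists_lift {E : Type*} [CommRing E] [Algebra K E] (N q : ℕ) (a : K)
    (κ : MvPolynomial (Fin 2) K →ₐ[K] E) (r : E) (w : Fin k → E)
    (hκ : ∀ i, κ (X i) ^ q = 0) (hr : r ^ q = 0) (hw : ∀ i, w i ^ q = 0)
    (hrN : r ^ N = κ (hh a)) :
    ∃ Ψ : (MvPolynomial (Idx k) K ⧸ (powIdeal (Idx k) K q ⊔ Ideal.span {ff k N a})) →ₐ[K] E,
      (∀ P, Ψ (Ideal.Quotient.mk _ (rename (iota k) P)) = κ P) ∧
      Ψ (Ideal.Quotient.mk _ (X (Sum.inl 2))) = r ∧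
      ∀ i, Ψ (Ideal.Quotient.mk _ (X (Sum.inr i))) = w i := by
  let vars : Idx k → E := Sum.elim ![κ (X 0), κ (X 1), r] w
  let ψ : MvPolynomial (Idx k) K →ₐ[K] E := aeval vars
  have hψX : ∀ i, ψ (X i) = vars i := fun i => aeval_X _ _
  have hψκ : ∀ P : MvPolynomial (Fin 2) K, ψ (rename (iota k) P) = κ P := by
    intro P
    have h0 : (ψ.comp (rename (iota k))) = κ := by
      apply MvPolynomial.algHom_ext
      intro i
      rw [AlgHom.comp_apply, rename_X, hψX]
      fin_cases i <;> rfl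
    rw [← h0]; rfl
  have hker : ∀ P ∈ powIdeal (Idx k) K q ⊔ Ideal.span {ff k N a}, ψ P = 0 := by
    have : powIdeal (Idx k) K q ⊔ Ideal.span {ff k N a} ≤ RingHom.ker ψ := by
      rw [sup_le_iff]
      constructor
      · rw [powIdeal_le_iff]
        intro i
        rw [RingHom.mem_ker, map_pow, hψX]
        rcases i with i | i
        · fin_cases i
          · exact hκ 0
          · exact hκ 1
          · exact hr
        · exact hw i
      · rw [Ideal.span_le, Set.singleton_subset_iff, SetLike.mem_coe, RingHom.mem_ker]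
        unfold ff
        rw [map_sub, map_pow, hψX, hψκ, sub_eq_zero]
        exact hrN
    exact fun P hP => this hP
  refine ⟨Ideal.Quotient.liftₐ _ ψ hker, hψκ, hψX _, fun i => hψX _⟩

lemma LL_lower_aux (N : ℕ) (a : K) (q j : ℕ) (hj : N * j ≤ q)
    (J : Ideal (MvPolynomial (Fin 2) K)) (hJ : J = powIdeal (Fin 2) K q ⊔ Ideal.span {hh a ^ j})
    (g : Polynomial (MvPolynomial (Fin 2) K ⧸ J))
    (hg : g = Polynomial.X ^ N - Polynomial.C (Ideal.Quotient.mk J (hh a))) :
    Module.finrank K (EE k q g) ≤ LL k N a q := by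
  -- the structure maps
  let κ : MvPolynomial (Fin 2) K →ₐ[K] (MvPolynomial (Fin k) (AdjoinRoot g) ⧸
      powIdeal (Fin k) (AdjoinRoot g) q) :=
    ((Ideal.Quotient.mkₐ K (powIdeal (Fin k) (AdjoinRoot g) q)).comp
      (IsScalarTower.toAlgHom K (AdjoinRoot g) (MvPolynomial (Fin k) (AdjoinRoot g)))).comp
      ((IsScalarTower.toAlgHom K (MvPolynomial (Fin 2) K ⧸ J) (AdjoinRoot g)).comp
        (Ideal.Quotient.mkₐ K J))
  let ρ : AdjoinRoot g →+* (MvPolynomial (Fin k) (AdjoinRoot g) ⧸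
      powIdeal (Fin k) (AdjoinRoot g) q) :=
    (Ideal.Quotient.mk _).comp C
  have hκJ : ∀ P ∈ J, κ P = 0 := by
    intro P hP
    have h0 : Ideal.Quotient.mkₐ K J P = 0 := Ideal.Quotient.eq_zero_iff_mem.mpr hP
    simp only [κ, AlgHom.comp_apply]
    rw [h0, map_zero, map_zero, map_zero]
  have hκρ : ∀ P : MvPolynomial (Fin 2) K, κ P = ρ (AdjoinRoot.of g (Ideal.Quotient.mk J P)) :=
    fun P => rfl
  have hroot : ρ (AdjoinRoot.root g) ^ N = κ (hh a) := by
    rw [hκρ, ← map_pow]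
    congr 1
    have h0 := AdjoinRoot.eval₂_root g
    conv at h0 => lhs; arg 3; rw [hg]
    rw [Polynomial.eval₂_sub, Polynomial.eval₂_X_pow, Polynomial.eval₂_C, sub_eq_zero] at h0
    exact h0
  have hκq : ∀ i : Fin 2, κ (X i) ^ q = 0 := by
    intro i
    rw [← map_pow]
    apply hκJ
    rw [hJ]
    exact Ideal.mem_sup_left (Ideal.subset_span ⟨i, rfl⟩)
  have hρq : ρ (AdjoinRoot.root g) ^ q = 0 := by
    obtain ⟨l, hl⟩ := Nat.exists_eq_add_of_le hj
    have h1 : κ (hh a) ^ j = 0 := by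
      rw [← map_pow]
      apply hκJ
      rw [hJ]
      exact Ideal.mem_sup_right (Ideal.subset_span rfl)
    have h2 : ρ (AdjoinRoot.root g) ^ q =
        (ρ (AdjoinRoot.root g) ^ N) ^ j * ρ (AdjoinRoot.root g) ^ l := by
      rw [← pow_mul, ← pow_add, ← hl]
    rw [h2, hroot, h1, zero_mul]
  have hwq : ∀ i : Fin k, (Ideal.Quotient.mk (powIdeal (Fin k) (AdjoinRoot g) q)
      (X i)) ^ q = 0 := by
    intro i
    rw [← map_pow, Ideal.Quotient.eq_zero_iff_mem]
    exact Ideal.subset_span ⟨i, rfl⟩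
  obtain ⟨Ψ, hΨκ, hΨr, hΨw⟩ := exists_lift k N q a κ (ρ (AdjoinRoot.root g))
    (fun i => Ideal.Quotient.mk _ (X i)) hκq hρq hwq hroot
  have hsurj : Function.Surjective Ψ := by
    rw [← AlgHom.range_eq_top, eq_top_iff]
    rintro x -
    obtain ⟨x, rfl⟩ := Ideal.Quotient.mk_surjective x
    have hκr : ∀ P, κ P ∈ Ψ.range := fun P => ⟨_, hΨκ P⟩
    have hρr : ∀ y, ρ y ∈ Ψ.range := by
      intro y
      induction y using AdjoinRoot.induction_on with
      | ih P =>
        induction P using Polynomial.induction_on' with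
        | add P P' h h' => rw [map_add, map_add]; exact add_mem h h'
        | monomial n c =>
          obtain ⟨P0, rfl⟩ := Ideal.Quotient.mk_surjective c
          rw [← Polynomial.C_mul_X_pow_eq_monomial, map_mul, map_mul, map_pow, map_pow]
          refine mul_mem (hκr P0) (pow_mem ?_ _)
          exact ⟨_, hΨr⟩
    induction x using MvPolynomial.induction_on with
    | C y => exact hρr y
    | add P P' h h' => rw [map_add]; exact add_mem h h'
    | mul_X P i h =>
      rw [map_mul]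
      exact mul_mem h ⟨_, hΨw i⟩
  have := finite_LL k N a q
  exact LinearMap.finrank_le_finrank_of_surjective (f := Ψ.toLinearMap) hsurj

theorem LL_lower (N : ℕ) (hN : N ≠ 0) (a : K) (q j : ℕ) (hj : N * j ≤ q) :
    q ^ k * (N * Gq q (hh a ^ j)) ≤ LL k N a q := by
  obtain ⟨-, h2⟩ := EE_facts k N q hN (hh a ^ j) _ rfl
    (Ideal.Quotient.mk (powIdeal (Fin 2) K q ⊔ Ideal.span {hh a ^ j}) (hh a)) _ rfl
  rw [← h2]
  exact LL_lower_aux k N a q j hj _ rfl _ rfl

lemma LL_upper_aux (N : ℕ) (a : K) (q j : ℕ) (hj : q ≤ N * j)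
    (J : Ideal (MvPolynomial (Fin 2) K)) (hJ : J = powIdeal (Fin 2) K q ⊔ Ideal.span {hh a ^ j})
    (g : Polynomial (MvPolynomial (Fin 2) K ⧸ J))
    (hg : g = Polynomial.X ^ N - Polynomial.C (Ideal.Quotient.mk J (hh a)))
    (h1 : Module.Finite K (EE k q g)) :
    LL k N a q ≤ Module.finrank K (EE k q g) := by
  obtain ⟨M, hM⟩ : ∃ M, M = powIdeal (Idx k) K q ⊔ Ideal.span {ff k N a} := ⟨_, rfl⟩
  unfold LL
  rw [← hM]
  have hMX : ∀ i, (Ideal.Quotient.mk M (X i)) ^ q = 0 := by
    intro i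
    rw [← map_pow, Ideal.Quotient.eq_zero_iff_mem, hM]
    exact Ideal.mem_sup_left (Ideal.subset_span ⟨i, rfl⟩)
  let κ : MvPolynomial (Fin 2) K →ₐ[K] (MvPolynomial (Idx k) K ⧸ M) :=
    (Ideal.Quotient.mkₐ K M).comp (rename (iota k))
  have hκ : ∀ P, κ P = Ideal.Quotient.mk M (rename (iota k) P) := fun _ => rfl
  have hzN : (Ideal.Quotient.mk M (X (Sum.inl 2))) ^ N = κ (hh a) := by
    rw [hκ, ← map_pow, ← sub_eq_zero, ← map_sub, Ideal.Quotient.eq_zero_iff_mem, hM]
    exact Ideal.mem_sup_right (Ideal.subset_span rfl)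
  have hJκ : ∀ P ∈ J, κ P = 0 := by
    have : J ≤ RingHom.ker κ := by
      rw [hJ, sup_le_iff]
      constructor
      · rw [powIdeal_le_iff]
        intro i
        rw [RingHom.mem_ker, map_pow, hκ, rename_X]
        exact hMX _
      · rw [Ideal.span_le, Set.singleton_subset_iff, SetLike.mem_coe, RingHom.mem_ker, map_pow,
          ← hzN, ← pow_mul]
        obtain ⟨l, hl⟩ := Nat.exists_eq_add_of_le hj
        rw [hl, pow_add, hMX, zero_mul]
    exact fun P hP => this hP
  let θ0 : (MvPolynomial (Fin 2) K ⧸ J) →ₐ[K] (MvPolynomial (Idx k) K ⧸ M) :=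
    Ideal.Quotient.liftₐ J κ hJκ
  have hθ0 : ∀ P, θ0 (Ideal.Quotient.mk J P) = κ P := fun _ => rfl
  have hθg : g.eval₂ (θ0 : (MvPolynomial (Fin 2) K ⧸ J) →+* (MvPolynomial (Idx k) K ⧸ M))
      (Ideal.Quotient.mk M (X (Sum.inl 2))) = 0 := by
    rw [hg, Polynomial.eval₂_sub, Polynomial.eval₂_X_pow, Polynomial.eval₂_C, hzN]
    exact sub_self _
  let θ1 : AdjoinRoot g →ₐ[K] (MvPolynomial (Idx k) K ⧸ M) :=
    AdjoinRoot.liftAlgHom g θ0 (Ideal.Quotient.mk M (X (Sum.inl 2))) hθg
  let θ2 : MvPolynomial (Fin k) (AdjoinRoot g) →ₐ[K] (MvPolynomial (Idx k) K ⧸ M) :=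
    aevalTower θ1 (fun i => Ideal.Quotient.mk M (X (Sum.inr i)))
  have hθ2 : ∀ P ∈ powIdeal (Fin k) (AdjoinRoot g) q, θ2 P = 0 := by
    have : powIdeal (Fin k) (AdjoinRoot g) q ≤ RingHom.ker θ2 := by
      rw [powIdeal_le_iff]
      intro i
      rw [RingHom.mem_ker, map_pow]
      simp only [θ2, aevalTower_X]
      exact hMX _
    exact fun P hP => this hP
  let θ : (MvPolynomial (Fin k) (AdjoinRoot g) ⧸ powIdeal (Fin k) (AdjoinRoot g) q) →ₐ[K]
      (MvPolynomial (Idx k) K ⧸ M) := Ideal.Quotient.liftₐ _ θ2 hθ2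
  have hsurj : Function.Surjective θ := by
    rw [← AlgHom.range_eq_top, eq_top_iff]
    rintro x -
    obtain ⟨x, rfl⟩ := Ideal.Quotient.mk_surjective x
    have hvar : ∀ i, Ideal.Quotient.mk M (X i) ∈ θ.range := by
      intro i
      rcases i with i | i
      · have hr : ∀ y : AdjoinRoot g, θ1 y ∈ θ.range := by
          intro y
          refine ⟨Ideal.Quotient.mk _ (C y), ?_⟩
          change θ2 (C y) = _
          simp only [θ2, aevalTower_C]
        fin_cases i
        · have := hr (AdjoinRoot.of g (Ideal.Quotient.mk J (X 0)))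
          simp only [θ1, AdjoinRoot.liftAlgHom_of, hθ0, hκ, rename_X] at this
          exact this
        · have := hr (AdjoinRoot.of g (Ideal.Quotient.mk J (X 1)))
          simp only [θ1, AdjoinRoot.liftAlgHom_of, hθ0, hκ, rename_X] at this
          exact this
        · have := hr (AdjoinRoot.root g)
          simp only [θ1, AdjoinRoot.liftAlgHom_root] at this
          exact this
      · refine ⟨Ideal.Quotient.mk _ (X i), ?_⟩
        change θ2 (X i) = _
        simp only [θ2, aevalTower_X]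
    induction x using MvPolynomial.induction_on with
    | C y => exact Subalgebra.algebraMap_mem _ y
    | add P P' h h' => rw [map_add]; exact add_mem h h'
    | mul_X P i h =>
      rw [map_mul]
      exact mul_mem h (hvar i)
  exact LinearMap.finrank_le_finrank_of_surjective (f := θ.toLinearMap) hsurj

theorem LL_upper (N : ℕ) (hN : N ≠ 0) (a : K) (q j : ℕ) (hj : q ≤ N * j) :
    LL k N a q ≤ q ^ k * (N * Gq q (hh a ^ j)) := by
  obtain ⟨h1, h2⟩ := EE_facts k N q hN (hh a ^ j) _ rfl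
    (Ideal.Quotient.mk (powIdeal (Fin 2) K q ⊔ Ideal.span {hh a ^ j}) (hh a)) _ rfl
  rw [← h2]
  exact LL_upper_aux k N a q j hj _ rfl _ rfl h1

end tower

end Pool.Agent.Helper73_HK
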