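import Mathlib
import Pool.Agent.Helper73_HK.Tower

/-!
# The limit of the normalized lengths
-/

namespace Pool.Agent.Helper73_HK

open MvPolynomial Filter Topology

theorem hk_limit (p : ℕ) [hpp : Fact p.Prime] {K : Type*} [Field K] [Finite K] [CharP K p]
    (a : K) (ha0 : a ≠ 0) (ha1 : a ≠ 1) (k : ℕ) :
    ∃ L : ℝ, Tendsto (fun e => (LL k (p + 1) a (p ^ e) : ℝ) / ((p : ℝ) ^ e) ^ (k + 2)) atTop
        (𝓝 L) ∧
      4 - 4 / ((p + 1 : ℕ) : ℝ) < L ∧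
      ∀ e, L ≤ ((p + 1 : ℕ) : ℝ) * Gq (p ^ e) (hh a ^ (p ^ e / (p + 1) + 1)) /
        ((p : ℝ) ^ e) ^ 2 := by
  have hp : 2 ≤ p := hpp.out.two_le
  have hp0 : (0 : ℝ) < p := by positivity
  have hN0 : 0 < p + 1 := by omega
  let g : ℕ → ℕ → ℕ := fun e j => Gq (p ^ e) (hh a ^ j)
  let u : ℕ → ℝ := fun e => (LL k (p + 1) a (p ^ e) : ℝ) / ((p : ℝ) ^ e) ^ (k + 2)
  have hu1 : ∀ e, ((p + 1 : ℕ) : ℝ) * g e (p ^ e / (p + 1)) / ((p : ℝ) ^ e) ^ 2 ≤ u e := by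
    intro e
    have h1 := LL_lower k (p + 1) (by omega) a (p ^ e) (p ^ e / (p + 1)) (Nat.mul_div_le _ _)
    have h2 : ((p : ℝ) ^ e) ^ k * (((p + 1 : ℕ) : ℝ) * g e (p ^ e / (p + 1))) ≤
        LL k (p + 1) a (p ^ e) := by exact_mod_cast h1
    change _ ≤ (LL k (p + 1) a (p ^ e) : ℝ) / ((p : ℝ) ^ e) ^ (k + 2)
    rw [div_le_div_iff₀ (by positivity) (by positivity), pow_add]
    nlinarith [mul_le_mul_of_nonneg_right h2 (by positivity : 0 ≤ ((p : ℝ) ^ e) ^ 2)]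
  have hu2 : ∀ e, u e ≤ ((p + 1 : ℕ) : ℝ) * g e (p ^ e / (p + 1) + 1) / ((p : ℝ) ^ e) ^ 2 := by
    intro e
    have h1 := LL_upper k (p + 1) (by omega) a (p ^ e) (p ^ e / (p + 1) + 1)
      (Nat.lt_mul_div_succ (p ^ e) hN0).le
    have h2 : (LL k (p + 1) a (p ^ e) : ℝ) ≤
        ((p : ℝ) ^ e) ^ k * (((p + 1 : ℕ) : ℝ) * g e (p ^ e / (p + 1) + 1)) := by
      exact_mod_cast h1
    change (LL k (p + 1) a (p ^ e) : ℝ) / ((p : ℝ) ^ e) ^ (k + 2) ≤ _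
    rw [div_le_div_iff₀ (by positivity) (by positivity), pow_add]
    nlinarith [mul_le_mul_of_nonneg_right h2 (by positivity : 0 ≤ ((p : ℝ) ^ e) ^ 2)]
  obtain ⟨L, hL, hLu⟩ := exists_limit p hp g
    (fun e i j hij => by
      change Gq _ _ ≤ Gq _ _
      rw [Gq_pow, Gq_pow]
      exact gd_mono _ hij)
    (fun e j => by
      change (j + 1) * Gq _ _ ≤ (j + 1) * Gq _ _ + _
      rw [Gq_pow, Gq_pow, gd_succ, mul_add]
      have := mul_inc_le (K := K) (cl (p ^ e) (hh a)) j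
      rw [finrank_Bq] at this
      omega)
    (fun e j => by
      change Gq _ _ ≤ p ^ 2 * Gq _ _
      have := Gq_frob_le p (p ^ e) (hh a ^ j)
      rwa [← pow_mul, ← pow_succ', mul_comm j p] at this)
    u hu1 hu2
  refine ⟨L, hL, ?_, hLu⟩
  -- the minimal `m`
  have hex : ∃ m, 1 ≤ m ∧ a ^ p ^ m = a := by
    have := Fintype.ofFinite K
    obtain ⟨n, -, hn⟩ := FiniteField.card K p
    refine ⟨n, n.pos, ?_⟩
    rw [← hn]
    exact FiniteField.pow_card a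
  classical
  obtain ⟨m, hmd⟩ : ∃ m, m = Nat.find hex := ⟨_, rfl⟩
  obtain ⟨hm1, ham⟩ := Nat.find_spec hex
  rw [← hmd] at hm1 ham
  have hm : ∀ j, 1 ≤ j → j < m → a ^ p ^ j ≠ a := by
    intro j hj1 hjm h
    exact Nat.find_min hex (hmd ▸ hjm) ⟨hj1, h⟩
  have hlow : ∀ l, 3 ≤ l → 4 - 4 / ((p + 1 : ℕ) : ℝ) +
      ((p : ℝ) - 1) ^ 2 / (8 * ((p + 1 : ℕ) : ℝ) * ((p : ℝ) ^ m) ^ 2)
      - 4 * p / (p : ℝ) ^ (m + l) ≤ u (m + l) := by
    intro l hl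
    refine le_trans (lower_value p m l (g (m + l) (p ^ (m + l) / (p + 1))) hp hl ?_) (hu1 _)
    intro t ht
    refine lower_bound p ha0 ha1 hm1 hm ham l _ t ?_ ht
    have h1 := Nat.mul_div_le (p ^ (m + l)) (p + 1)
    have h2 : 2 * (p ^ (m + l) / (p + 1)) ≤ (p + 1) * (p ^ (m + l) / (p + 1)) :=
      Nat.mul_le_mul_right _ (by omega)
    omega
  have hconv : Tendsto (fun l => 4 - 4 / ((p + 1 : ℕ) : ℝ) +
      ((p : ℝ) - 1) ^ 2 / (8 * ((p + 1 : ℕ) : ℝ) * ((p : ℝ) ^ m) ^ 2)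
      - 4 * p / (p : ℝ) ^ (m + l)) atTop (𝓝 (4 - 4 / ((p + 1 : ℕ) : ℝ) +
      ((p : ℝ) - 1) ^ 2 / (8 * ((p + 1 : ℕ) : ℝ) * ((p : ℝ) ^ m) ^ 2) - 0)) := by
    refine Tendsto.sub tendsto_const_nhds ?_
    refine Tendsto.div_atTop tendsto_const_nhds ?_
    exact (tendsto_pow_atTop_atTop_of_one_lt (by exact_mod_cast (by omega : 1 < p))).comp
      (tendsto_atTop_mono (fun l => Nat.le_add_left l m) tendsto_id)
  have hu' : Tendsto (fun l => u (m + l)) atTop (𝓝 L) :=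
    hL.comp (tendsto_atTop_mono (fun l => Nat.le_add_left l m) tendsto_id)
  have hle := le_of_tendsto_of_tendsto hconv hu' (by
    filter_upwards [eventually_ge_atTop 3] with l hl using hlow l hl)
  have hpos : 0 < ((p : ℝ) - 1) ^ 2 / (8 * ((p + 1 : ℕ) : ℝ) * ((p : ℝ) ^ m) ^ 2) := by
    have : (0 : ℝ) < (p : ℝ) - 1 := by
      have : (2 : ℝ) ≤ p := by exact_mod_cast hp
      linarith
    positivity
  linarith

/-- Parameters with values close to `4 - 4/(p+1)`. -/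
theorem exists_good_level (p : ℕ) (hp : 2 ≤ p) (ε : ℝ) (hε : 0 < ε) :
    ∃ e : ℕ, 2 * (p ^ e / (p + 1) + 1) ≤ p ^ e ∧
      ∀ G : ℕ, G + (p ^ e - 2 * (p ^ e / (p + 1) + 1)) ^ 2 ≤ (p ^ e) ^ 2 →
        ((p + 1 : ℕ) : ℝ) * G / ((p : ℝ) ^ e) ^ 2 < 4 - 4 / ((p + 1 : ℕ) : ℝ) + ε := by
  have h1 : Tendsto (fun e : ℕ => 4 * ((p + 1 : ℕ) : ℝ) / (p : ℝ) ^ e) atTop (𝓝 0) :=
    Tendsto.div_atTop tendsto_const_nhds
      (tendsto_pow_atTop_atTop_of_one_lt (by exact_mod_cast (by omega : 1 < p)))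
  obtain ⟨e, he, he3⟩ := ((h1.eventually_lt_const hε).and (eventually_ge_atTop 3)).exists
  have hj : 2 * (p ^ e / (p + 1) + 1) ≤ p ^ e := by
    have h2 := Nat.mul_div_le (p ^ e) (p + 1)
    have h3 : 3 * (p ^ e / (p + 1)) ≤ (p + 1) * (p ^ e / (p + 1)) :=
      Nat.mul_le_mul_right _ (by omega)
    have h4 : 2 ^ 3 ≤ p ^ e := (Nat.pow_le_pow_left hp 3).trans (Nat.pow_le_pow_right (by omega) he3)
    omega
  refine ⟨e, hj, fun G hG => ?_⟩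
  have := upper_value p e G hp hj hG
  linarith

end Pool.Agent.Helper73_HK
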