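import Mathlib

/-!
# Lengths over a localization versus dimensions over the residue field
-/

namespace Pool.Agent.Helper73_HK

open IsLocalRing

section

variable {K : Type*} [Field K] {A : Type*} [CommRing A] [Algebra K A] (P : Ideal A) [P.IsMaximal]

omit [Algebra K A] [Field K] in
lemma exists_mul_sub_mem {J : Ideal A} {n : ℕ} (hJ : P ^ n ≤ J) {s : A} (hs : s ∉ P) :
    ∃ s', s * s' - 1 ∈ J := by
  -- `s` is a unit modulo `P`
  obtain ⟨t, ht⟩ : ∃ t, s * t - 1 ∈ P := by
    have h1 : IsUnit (Ideal.Quotient.mk P s) := by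
      let := Ideal.Quotient.field P
      rw [isUnit_iff_ne_zero]
      rwa [Ne, Ideal.Quotient.eq_zero_iff_mem]
    obtain ⟨u, hu⟩ := h1.exists_right_inv
    obtain ⟨t, rfl⟩ := Ideal.Quotient.mk_surjective u
    refine ⟨t, ?_⟩
    rw [← Ideal.Quotient.eq_zero_iff_mem, map_sub, map_mul, map_one, hu, sub_self]
  have h2 : (1 - s * t) ^ n ∈ J := by
    apply hJ
    apply Ideal.pow_mem_pow
    rw [← neg_sub]
    exact neg_mem ht
  -- `1 - (1 - s t)^n` is divisible by `s t`
  have h3 : (s * t) ∣ 1 - (1 - s * t) ^ n := by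
    have := sub_dvd_pow_sub_pow (1 : A) (1 - s * t) n
    rwa [one_pow, sub_sub_cancel] at this
  obtain ⟨v, hv⟩ := h3
  refine ⟨t * v, ?_⟩
  have : s * (t * v) - 1 = -((1 - s * t) ^ n) := by
    rw [← mul_assoc, ← hv]; ring
  rw [this]
  exact neg_mem h2

variable (R : Type*) [CommRing R] [Algebra A R] [IsLocalization.AtPrime R P] [Algebra K R]
  [IsScalarTower K A R]

/-- the structure map to the quotient of the localization. -/
noncomputable def locQuot (K : Type*) [Field K] {A : Type*} [CommRing A] [Algebra K A]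
    (R : Type*) [CommRing R] [Algebra A R] [Algebra K R] [IsScalarTower K A R] (J : Ideal A) :
    A →ₐ[K] (R ⧸ J.map (algebraMap A R)) :=
  (Ideal.Quotient.mkₐ K _).comp (IsScalarTower.toAlgHom K A R)

lemma locQuot_surjective {J : Ideal A} {n : ℕ} (hJ : P ^ n ≤ J) :
    Function.Surjective (locQuot K R J) := by
  intro y
  obtain ⟨y, rfl⟩ := Ideal.Quotient.mk_surjective y
  obtain ⟨a, s, rfl⟩ := IsLocalization.exists_mk'_eq P.primeCompl y
  obtain ⟨s', hs'⟩ := exists_mul_sub_mem P hJ s.2
  refine ⟨a * s', ?_⟩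
  change Ideal.Quotient.mk _ (algebraMap A R (a * s')) = _
  rw [Ideal.Quotient.eq]
  have hu : IsUnit (algebraMap A R s) := IsLocalization.map_units _ s
  rw [← Ideal.unit_mul_mem_iff_mem _ hu]
  have : algebraMap A R s *
      (algebraMap A R (a * s') - IsLocalization.mk' R a s) =
      algebraMap A R (a * ((s : A) * s' - 1)) := by
    rw [mul_sub, IsLocalization.mul_mk'_eq_mk'_of_mul, mul_comm (s : A) a,
      IsLocalization.mk'_mul_cancel_right, ← map_mul, ← map_sub]
    congr 1
    ring
  rw [this]
  exact Ideal.mem_map_of_mem _ (Ideal.mul_mem_left _ _ hs')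

lemma locQuot_ker {J : Ideal A} {n : ℕ} (hJ : P ^ n ≤ J) :
    RingHom.ker (locQuot K R J) = J := by
  ext a
  rw [RingHom.mem_ker]
  change Ideal.Quotient.mk _ (algebraMap A R a) = 0 ↔ _
  rw [Ideal.Quotient.eq_zero_iff_mem]
  constructor
  · intro h
    rw [IsLocalization.mem_map_algebraMap_iff P.primeCompl] at h
    obtain ⟨⟨b, s⟩, hbs⟩ := h
    simp only at hbs
    rw [← map_mul] at hbs
    obtain ⟨c, hc⟩ := (IsLocalization.eq_iff_exists P.primeCompl _).mp hbs
    -- `c * (a * s) = c * b ∈ J`
    have h1 : (c : A) * (a * s) ∈ J := by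
      rw [hc]; exact Ideal.mul_mem_left _ _ b.2
    have hcs : (c : A) * s ∉ P := (c * s).2
    obtain ⟨s', hs'⟩ := exists_mul_sub_mem P hJ hcs
    have h2 : a = s' * ((c : A) * (a * s)) - a * ((c : A) * s * s' - 1) := by ring
    rw [h2]
    exact sub_mem (Ideal.mul_mem_left _ _ h1) (Ideal.mul_mem_left _ _ hs')
  · intro h
    exact Ideal.mem_map_of_mem _ h

theorem length_eq [IsLocalRing R] {J : Ideal A} {n : ℕ} (hJ : P ^ n ≤ J)
    (hK : ∀ x : A, ∃ c : K, x - algebraMap K A c ∈ P) [Module.Finite K (A ⧸ J)] :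
    Module.length R (R ⧸ J.map (algebraMap A R)) = (Module.finrank K (A ⧸ J) : ℕ∞) := by
  let e := (Ideal.quotientEquivAlgOfEq K (locQuot_ker (K := K) P R hJ).symm).trans
    (Ideal.quotientKerAlgEquivOfSurjective (locQuot_surjective (K := K) P R hJ))
  have hfin : Module.Finite K (R ⧸ J.map (algebraMap A R)) := Module.Finite.equiv e.toLinearEquiv
  have hlen := IsLocalRing.length_restrictScalars K R (R ⧸ J.map (algebraMap A R))
  have h1 : Module.length (ResidueField K) (ResidueField R) = 1 := by
    have hs : Function.Surjective (algebraMap (ResidueField K) (ResidueField R)) := by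
      intro y
      obtain ⟨y, rfl⟩ := residue_surjective y
      obtain ⟨a, s, rfl⟩ := IsLocalization.exists_mk'_eq P.primeCompl y
      obtain ⟨c, hc⟩ := hK a
      obtain ⟨c', hc'⟩ := hK s
      have hc0 : c' ≠ 0 := by
        rintro rfl
        rw [map_zero, sub_zero] at hc'
        exact s.2 hc'
      refine ⟨residue K (c / c'), ?_⟩
      change residue R (algebraMap K R (c / c')) = _
      rw [← sub_eq_zero, ← map_sub, residue_eq_zero_iff]
      have hu : IsUnit (algebraMap A R s) := IsLocalization.map_units _ s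
      rw [← Ideal.unit_mul_mem_iff_mem _ hu]
      have h2 : algebraMap A R s *
          (algebraMap K R (c / c') - IsLocalization.mk' R a s) =
          algebraMap A R (algebraMap K A (c / c') * ((s : A) - algebraMap K A c') -
            (a - algebraMap K A c)) := by
        rw [mul_sub, IsLocalization.mul_mk'_eq_mk'_of_mul, mul_comm (s : A) a,
          IsLocalization.mk'_mul_cancel_right, IsScalarTower.algebraMap_apply K A R, ← map_mul,
          ← map_sub]
        congr 1
        have h3 : algebraMap K A (c / c') * algebraMap K A c' = algebraMap K A c := by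
          rw [← map_mul, div_mul_cancel₀ _ hc0]
        linear_combination h3
      rw [h2, ← IsLocalization.AtPrime.map_eq_maximalIdeal P R]
      exact Ideal.mem_map_of_mem _ (sub_mem (Ideal.mul_mem_left _ _ hc') hc)
    rw [Module.length_eq_of_surjective hs]
    exact Module.length_eq_one _ _
  rw [h1, mul_one] at hlen
  rw [← hlen, Module.length_eq_finrank, e.toLinearEquiv.finrank_eq]

end

end Pool.Agent.Helper73_HK
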