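import Mathlib
import Pool.Agent.Helper73_HK.Defs
import Pool.Agent.Helper73_HK.HKLimit
import Pool.Agent.Helper73_HK.Emb
import Pool.Agent.Helper73_HK.LenAlg

/-!
# The main theorem
-/

open IsLocalRing Filter Topology MvPolynomial

namespace Pool.Agent.Helper73_HK

universe u

section ring

variable {K : Type u} [Field K] (k N : ℕ) (a : K)

lemma ff_mem (hN : 2 ≤ N) : ff k N a ∈ nn0 K (Idx k) ^ 2 := by
  have hX : ∀ i, (X i : MvPolynomial (Idx k) K) ∈ nn0 K (Idx k) := fun i => ev_X i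
  unfold ff
  refine sub_mem ?_ ?_
  · exact Ideal.pow_le_pow_right hN (Ideal.pow_mem_pow (hX _) N)
  · unfold hh
    rw [map_mul, map_mul, map_mul, rename_X, rename_X, mul_assoc]
    refine Ideal.mul_mem_right _ _ ?_
    rw [sq]
    exact Ideal.mul_mem_mul (hX _) (hX _)

lemma ff_ne_zero (hN : N ≠ 0) : ff k N a ≠ 0 := by
  intro h
  have h1 := congrArg (coeff (Finsupp.single (Sum.inl 2 : Idx k) N)) h
  unfold ff at h1
  rw [coeff_sub, coeff_X_pow, if_pos rfl, coeff_zero] at h1
  have h2 : coeff (Finsupp.single (Sum.inl 2 : Idx k) N) (rename (iota k) (hh a)) = 0 := by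
    by_contra h3
    obtain ⟨v, hv, -⟩ := coeff_rename_ne_zero _ _ _ h3
    have h4 := DFunLike.congr_fun hv (Sum.inl 2)
    rw [Finsupp.single_eq_same] at h4
    apply hN
    rw [← h4]
    apply Finsupp.mapDomain_of_notMem_range
    rintro ⟨i, hi⟩
    fin_cases i <;> simp [iota] at hi
  rw [h2] at h1
  simp at h1

/-- The coordinate ring. -/
abbrev AA (K : Type u) [Field K] (k N : ℕ) (a : K) : Type u :=
  MvPolynomial (Idx k) K ⧸ Ideal.span {ff k N a}

/-- evaluation at the origin -/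
noncomputable def evA (hN : 2 ≤ N) : AA K k N a →ₐ[K] K :=
  Ideal.Quotient.liftₐ _ (ev K (Idx k)) (by
    have h : Ideal.span {ff k N a} ≤ nn0 K (Idx k) := by
      rw [Ideal.span_le, Set.singleton_subset_iff]
      exact Ideal.pow_le_self (by norm_num) (ff_mem k N a hN)
    exact fun x hx => h hx)

lemma evA_surjective (hN : 2 ≤ N) : Function.Surjective (evA k N a hN) := by
  intro c
  obtain ⟨x, hx⟩ := ev_surjective (K := K) (σ := Idx k) c
  exact ⟨Ideal.Quotient.mk _ x, hx⟩

/-- the maximal ideal of the origin -/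
noncomputable def PP (hN : 2 ≤ N) : Ideal (AA K k N a) := RingHom.ker (evA k N a hN)

instance PP_max (hN : 2 ≤ N) : (PP k N a hN).IsMaximal :=
  RingHom.ker_isMaximal_of_surjective (evA k N a hN) (evA_surjective k N a hN)

lemma PP_comap (hN : 2 ≤ N) :
    (PP k N a hN).comap (Ideal.Quotient.mk (Ideal.span {ff k N a})) = nn0 K (Idx k) := rfl

lemma PP_eq_map (hN : 2 ≤ N) :
    PP k N a hN = (nn0 K (Idx k)).map (Ideal.Quotient.mk (Ideal.span {ff k N a})) := by
  rw [← PP_comap k N a hN, Ideal.map_comap_of_surjective _ Ideal.Quotient.mk_surjective]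

lemma PP_eq_span (hN : 2 ≤ N) :
    PP k N a hN = Ideal.span (Set.range fun i => Ideal.Quotient.mk (Ideal.span {ff k N a}) (X i)) := by
  rw [PP_eq_map, nn0_eq_span, Ideal.map_span, ← Set.range_comp]
  rfl

/-- the bracket power of the maximal ideal of the origin, downstairs -/
noncomputable def JJ (q : ℕ) : Ideal (AA K k N a) :=
  (powIdeal (Idx k) K q).map (Ideal.Quotient.mk (Ideal.span {ff k N a}))

lemma JJ_eq_span (q : ℕ) : JJ k N a q =
    Ideal.span (Set.range fun i => (Ideal.Quotient.mk (Ideal.span {ff k N a}) (X i)) ^ q) := by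
  unfold JJ powIdeal
  rw [Ideal.map_span, ← Set.range_comp]
  congr 1

lemma JJ_quot (q : ℕ) :
    Module.Finite K (AA K k N a ⧸ JJ k N a q) ∧
      Module.finrank K (AA K k N a ⧸ JJ k N a q) = LL k N a q := by
  have e := DoubleQuot.quotQuotEquivQuotSupₐ K (Ideal.span {ff k N a}) (powIdeal (Idx k) K q)
  have h := finite_LL k N a q
  have hc : powIdeal (Idx k) K q ⊔ Ideal.span {ff k N a} =
      Ideal.span {ff k N a} ⊔ powIdeal (Idx k) K q := sup_comm _ _
  have e2 := Ideal.quotientEquivAlgOfEq K hc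
  have e3 : (AA K k N a ⧸ JJ k N a q) ≃ₐ[K]
      (MvPolynomial (Idx k) K ⧸ (powIdeal (Idx k) K q ⊔ Ideal.span {ff k N a})) :=
    e.trans e2.symm
  exact ⟨Module.Finite.equiv e3.toLinearEquiv.symm, e3.toLinearEquiv.finrank_eq⟩

lemma PP_pow_le (hN : 2 ≤ N) (q : ℕ) : ∃ n, PP k N a hN ^ n ≤ JJ k N a q := by
  refine Ideal.exists_pow_le_of_le_radical_of_fg ?_ ?_
  · rw [PP_eq_span, Ideal.span_le]
    rintro _ ⟨i, rfl⟩
    refine ⟨q, ?_⟩
    rw [JJ_eq_span]
    exact Ideal.subset_span ⟨i, rfl⟩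
  · rw [PP_eq_span]
    exact ⟨(Set.finite_range _).toFinset, by rw [Set.Finite.coe_toFinset]⟩

lemma PP_residue (hN : 2 ≤ N) (x : AA K k N a) :
    ∃ c : K, x - algebraMap K (AA K k N a) c ∈ PP k N a hN := by
  refine ⟨evA k N a hN x, ?_⟩
  unfold PP
  rw [RingHom.mem_ker, map_sub, AlgHom.commutes]
  exact sub_self _

/-- the local ring -/
abbrev RR (K : Type u) [Field K] (k N : ℕ) (a : K) (hN : 2 ≤ N) : Type u :=
  Localization.AtPrime (PP k N a hN)

omit [Field K] in
lemma bracket_span {R : Type u} [CommRing R] (p : ℕ) [Fact p.Prime] [CharP R p] {ι : Type*}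
    (x : ι → R) (e : ℕ) :
    bracketPower (Ideal.span (Set.range x)) (p ^ e) =
      Ideal.span (Set.range fun i => x i ^ p ^ e) := by
  unfold bracketPower
  apply le_antisymm
  · rw [Ideal.span_le]
    rintro _ ⟨y, hy, rfl⟩
    have hle : Ideal.span (Set.range x) ≤ (Ideal.span (Set.range fun i => x i ^ p ^ e)).comap
        (iterateFrobenius R p e) := by
      rw [Ideal.span_le]
      rintro _ ⟨i, rfl⟩
      exact Ideal.subset_span ⟨i, rfl⟩
    exact hle hy
  · rw [Ideal.span_le]
    rintro _ ⟨i, rfl⟩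
    exact Ideal.subset_span ⟨x i, Ideal.subset_span ⟨i, rfl⟩, rfl⟩

lemma map_PP {S : Type*} [CommRing S] (hN : 2 ≤ N) (g : AA K k N a →+* S) :
    (PP k N a hN).map g = Ideal.span (Set.range fun i =>
      g (Ideal.Quotient.mk (Ideal.span {ff k N a}) (X i))) := by
  rw [PP_eq_span, Ideal.map_span, ← Set.range_comp]
  rfl

lemma map_JJ {S : Type*} [CommRing S] (q : ℕ) (g : AA K k N a →+* S) :
    (JJ k N a q).map g = Ideal.span (Set.range fun i =>
      g (Ideal.Quotient.mk (Ideal.span {ff k N a}) (X i)) ^ q) := by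
  rw [JJ_eq_span, Ideal.map_span, ← Set.range_comp]
  congr 2
  funext i
  simp

lemma bracket_map {S : Type u} [CommRing S] [Algebra K S] [Nontrivial S] (p : ℕ) [Fact p.Prime]
    [CharP K p] (hN : 2 ≤ N) (g : AA K k N a →+* S) (e : ℕ) :
    bracketPower ((PP k N a hN).map g) (p ^ e) = (JJ k N a (p ^ e)).map g := by
  have : CharP S p := charP_of_injective_algebraMap (algebraMap K S).injective p
  rw [map_PP, map_JJ, bracket_span]

lemma isHK (p : ℕ) [Fact p.Prime] [CharP K p] (hN : 2 ≤ N) (R : Type u) [CommRing R]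
    [IsLocalRing R] [Algebra (AA K k N a) R] [IsLocalization.AtPrime R (PP k N a hN)]
    [Algebra K R] [IsScalarTower K (AA K k N a) R] (L : ℝ)
    (hL : Tendsto (fun e => (LL k N a (p ^ e) : ℝ) / ((p : ℝ) ^ e) ^ (k + 2)) atTop (𝓝 L)) :
    IsHilbertKunzMultiplicity p (k + 2) R L := by
  refine ⟨fun e => LL k N a (p ^ e), fun e => ?_, hL⟩
  obtain ⟨n, hn⟩ := PP_pow_le k N a hN (p ^ e)
  obtain ⟨hfin, hrank⟩ := JJ_quot k N a (p ^ e)
  change _ = ((LL k N a (p ^ e) : ℕ) : ℕ∞)
  rw [← IsLocalization.AtPrime.map_eq_maximalIdeal (PP k N a hN) R, bracket_map, ← hrank]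
  exact length_eq (PP k N a hN) R hn (PP_residue k N a hN)

instance noeth_RR (hN : 2 ≤ N) : IsNoetherianRing (RR K k N a hN) :=
  IsLocalization.isNoetherianRing (PP k N a hN).primeCompl _ inferInstance

lemma dim_RR (hN : 2 ≤ N) : ringKrullDim (RR K k N a hN) = ((k + 2 : ℕ) : WithBot ℕ∞) := by
  have h := dim_hypersurface (ff k N a) (ff_ne_zero k N a (by omega))
    (Ideal.pow_le_self (by norm_num) (ff_mem k N a hN)) (PP k N a hN) (PP_comap k N a hN)
  have h2 : Fintype.card (Idx k) = k + 2 + 1 := by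
    simp [Idx]; ring
  rw [h2, Nat.cast_add, Nat.cast_one] at h
  exact ENat.WithBot.add_one_cancel.mp h

lemma not_regular (hN : 2 ≤ N) : ¬ IsRegularLocalRing (RR K k N a hN) := by
  intro hreg
  have h1 := hreg.spanFinrank_maximalIdeal
  rw [dim_RR] at h1
  have h2 : Fintype.card (Idx k) ≤ (maximalIdeal (RR K k N a hN)).spanFinrank :=
    card_le_of_surj (K := K) (σ := Idx k) (Ideal.Quotient.mk (Ideal.span {ff k N a}))
    Ideal.Quotient.mk_surjective (by
      rw [Ideal.mk_ker, Ideal.span_le, Set.singleton_subset_iff]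
      exact ff_mem k N a hN) (PP k N a hN) (PP_comap k N a hN)
  have h3 : Fintype.card (Idx k) = k + 2 + 1 := by
    simp [Idx]; ring
  have h4 : (maximalIdeal (RR K k N a hN)).spanFinrank = k + 2 := by exact_mod_cast h1
  omega

end ring

section field

variable (p : ℕ) [Fact p.Prime] (F : Type u) [Field F] [CharP F p]

/-- The local rings of the problem attached to a finite extension `K` of `F`. -/
theorem isValue [Finite F] (K : Type u) [Field K] [Algebra F K] [FiniteDimensional F K] (k : ℕ)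
    (a : K) (L : ℝ)
    (hL : Tendsto (fun e => (LL k (p + 1) a (p ^ e) : ℝ) / ((p : ℝ) ^ e) ^ (k + 2)) atTop (𝓝 L)) :
    IsSingularHKValue p F (k + 2) L := by
  have hp := (Fact.out : p.Prime).two_le
  have hN : 2 ≤ p + 1 := by omega
  have : CharP K p := charP_of_injective_algebraMap (algebraMap F K).injective p
  refine ⟨RR K k (p + 1) a hN, inferInstance, inferInstance, inferInstance, inferInstance,
    ⟨AA K k (p + 1) a, inferInstance, inferInstance, inferInstance, PP k (p + 1) a hN,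
      PP_max _ _ _ _, ?_, inferInstance, inferInstance⟩, dim_RR _ _ _ _, not_regular _ _ _ _,
    isHK k (p + 1) a p hN (RR K k (p + 1) a hN) L hL⟩
  have h1 : Algebra.FiniteType F (MvPolynomial (Idx k) K) :=
    Algebra.FiniteType.trans (S := K) inferInstance inferInstance
  exact h1.of_surjective (Ideal.Quotient.mkₐ F _) Ideal.Quotient.mk_surjective

omit [Fact p.Prime] [CharP F p] in
/-- Parameters avoiding the roots of a polynomial. -/
theorem exists_param (D : Polynomial F) (hD0 : D ≠ 0) :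
    ∃ (K : Type u) (_ : Field K) (_ : Algebra F K) (_ : FiniteDimensional F K) (a : K),
      a ≠ 0 ∧ a ≠ 1 ∧ Polynomial.aeval a D ≠ 0 := by
  let Fb := AlgebraicClosure F
  obtain ⟨lam, hlam⟩ : ∃ lam : Fb,
      ((D.map (algebraMap F Fb)) * Polynomial.X * (Polynomial.X - Polynomial.C 1)).eval lam ≠ 0 := by
    by_contra hne
    push Not at hne
    have h0 : (D.map (algebraMap F Fb)) * Polynomial.X * (Polynomial.X - Polynomial.C 1) = 0 :=
      Polynomial.funext fun x => by rw [hne x, Polynomial.eval_zero]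
    have h1 : (D.map (algebraMap F Fb)) ≠ 0 := by
      rwa [Ne, Polynomial.map_eq_zero]
    exact mul_ne_zero (mul_ne_zero h1 Polynomial.X_ne_zero) (Polynomial.X_sub_C_ne_zero 1) h0
  rw [Polynomial.eval_mul, Polynomial.eval_mul, Polynomial.eval_X, Polynomial.eval_sub,
    Polynomial.eval_X, Polynomial.eval_C, Polynomial.eval_map] at hlam
  have hlam1 : Polynomial.eval₂ (algebraMap F Fb) lam D ≠ 0 :=
    left_ne_zero_of_mul (left_ne_zero_of_mul hlam)
  have hlam0 : lam ≠ 0 := right_ne_zero_of_mul (left_ne_zero_of_mul hlam)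
  have hlamne : lam ≠ 1 := fun h => right_ne_zero_of_mul hlam (by rw [h, sub_self])
  have hint : IsIntegral F lam := Algebra.IsIntegral.isIntegral lam
  refine ⟨IntermediateField.adjoin F {lam}, inferInstance, inferInstance,
    IntermediateField.adjoin.finiteDimensional hint,
    ⟨lam, IntermediateField.mem_adjoin_simple_self F lam⟩, ?_, ?_, ?_⟩
  · intro h; exact hlam0 (congrArg Subtype.val h)
  · intro h; exact hlamne (congrArg Subtype.val h)
  · intro h
    apply hlam1
    have h1 := congrArg (algebraMap (IntermediateField.adjoin F {lam}) Fb) h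
    rw [map_zero, ← Polynomial.aeval_algebraMap_apply, Polynomial.aeval_def] at h1
    exact h1

/-- Values close to the limit. -/
theorem exists_value [Finite F] (k : ℕ) (ε : ℝ) (hε : 0 < ε) :
    ∃ L, (IsSingularHKValue p F (k + 2) L ∧ 4 - 4 / ((p + 1 : ℕ) : ℝ) < L) ∧
      L < 4 - 4 / ((p + 1 : ℕ) : ℝ) + ε := by
  have hp := (Fact.out : p.Prime).two_le
  obtain ⟨e, hj, hgood⟩ := exists_good_level p hp ε hε
  obtain ⟨D, hD0, hD⟩ := exists_poly F (p ^ e) (p ^ e / (p + 1) + 1) hj
  obtain ⟨K, _, _, _, a, ha0, ha1, haD⟩ := exists_param F D hD0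
  have : Finite K := Module.finite_of_finite F
  have : CharP K p := charP_of_injective_algebraMap (algebraMap F K).injective p
  obtain ⟨L, hL, hLc, hLw⟩ := hk_limit p a ha0 ha1 k
  refine ⟨L, ⟨isValue p F K k a L hL, hLc⟩, ?_⟩
  exact lt_of_le_of_lt (hLw e) (hgood _ (hD K a haD))

/-- **Main theorem.** -/
theorem main [Finite F] (k : ℕ) :
    ∃ e : ℕ → ℝ, (∀ n, IsSingularHKValue p F (k + 2) (e n)) ∧ StrictAnti e ∧
      Tendsto e atTop (𝓝 (4 * p / (p + 1))) := by
  obtain ⟨c, hc⟩ : ∃ c : ℝ, c = 4 - 4 / ((p + 1 : ℕ) : ℝ) := ⟨_, rfl⟩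
  have hc2 : (4 * p / (p + 1) : ℝ) = c := by
    rw [hc]; push_cast; field_simp; ring
  have hsmall := exists_value p F k
  rw [← hc] at hsmall
  -- the values
  let E : Set ℝ := {L | IsSingularHKValue p F (k + 2) L ∧ c < L}
  have hglb : IsGLB E c := by
    constructor
    · intro L hL; exact hL.2.le
    · intro b hb
      refine le_of_forall_pos_lt_add fun ε hε => ?_
      obtain ⟨L, hL, hLε⟩ := hsmall ε hε
      exact lt_of_le_of_lt (hb hL) hLε
  have hne : E.Nonempty := by
    obtain ⟨L, hL, -⟩ := hsmall 1 one_pos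
    exact ⟨L, hL⟩
  obtain ⟨e, he1, -, he2, he3⟩ :=
    hglb.exists_seq_strictAnti_tendsto_of_notMem (fun h => lt_irrefl _ h.2) hne
  refine ⟨e, fun n => (he3 n).1, he1, ?_⟩
  rw [hc2]
  exact he2

end field

end Pool.Agent.Helper73_HK
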